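import Mathlib

/-!
# The cycle automaton

States are `none` (no real edge) or `some (f, g, c)` where `f` is the colour of the arc
`w → σ w`, `g` the colour of the arc `σ w → w` and `c` the colour of the vertex `w`.  The arc colour
`4` is the extra (star) colour; the vertex colour `4` means that `w` has no colour of this palette.
-/

namespace TT

/-- the letters of the cyclic words -/
inductive Letter
  | G | F | I
  | C (a : Fin 4)
  | L (a : Fin 4)
  | R (a : Fin 4)
  deriving DecidableEq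

abbrev St := Option (ℕ × ℕ × ℕ)

/-- is the vertex coloured with a colour of this palette? -/
def isU : Letter → Bool
  | .G => false
  | .F => false
  | _ => true

/-- the fixed colour of a letter -/
def colOf : Letter → ℕ
  | .C a => a
  | .L a => a
  | .R a => a
  | _ => 5

/-- a valid state on a real edge -/
def okst (f g c : ℕ) : Bool :=
  decide (f ≤ 4) && decide (g ≤ 4) && decide (c ≤ 4) && (f != g) && (c == 4 || (f != c && g != c))
    && (c != 4 || (f != 4 && g != 4))

/-- the condition at a vertex with both edges real -/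
def okmid (f g c f2 g2 c2 : ℕ) : Bool :=
  okst f g c && okst f2 g2 c2 && (f != f2) && (g != f2) && (g != g2) &&
    (c == 4 || c2 == 4 || c != c2) &&
    (bif c2 == 4 then (f != 4 && g != 4 && f2 != 4 && g2 != 4)
      else (f != c2 && g != c2 && f2 != c2 && g2 != c2))

/-- the transition relation: from the state before a vertex to the state after it -/
def tr : St → Letter → St → Bool
  | none, .G, none => true
  | none, .L a, some (f, g, c) => okst f g c && (c == (a : ℕ)) && f != 4
  | some (f, g, c), .R a, none => okst f g c && (c != (a : ℕ)) && f != (a : ℕ) && g != (a : ℕ) && g != 4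
  | some (f, g, c), .F, some (f2, g2, c2) => okmid f g c f2 g2 c2 && (c2 == 4)
  | some (f, g, c), .I, some (f2, g2, c2) => okmid f g c f2 g2 c2 && (c2 != 4)
  | some (f, g, c), .C a, some (f2, g2, c2) => okmid f g c f2 g2 c2 && (c2 == (a : ℕ))
  | _, _, _ => false

/-- the states, in the order used by the bit masks -/
def sts : List St :=
  [none, some (1, 2, 0), some (1, 3, 0), some (1, 4, 0), some (2, 1, 0), some (2, 3, 0), some (2,
    4, 0), some (3, 1, 0), some (3, 2, 0), some (3, 4, 0), some (4, 1, 0), some (4, 2, 0), some (4,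
    3, 0), some (0, 2, 1), some (0, 3, 1), some (0, 4, 1), some (2, 0, 1), some (2, 3, 1), some (2,
    4, 1), some (3, 0, 1), some (3, 2, 1), some (3, 4, 1), some (4, 0, 1), some (4, 2, 1), some (4,
    3, 1), some (0, 1, 2), some (0, 3, 2), some (0, 4, 2), some (1, 0, 2), some (1, 3, 2), some (1,
    4, 2), some (3, 0, 2), some (3, 1, 2), some (3, 4, 2), some (4, 0, 2), some (4, 1, 2), some (4,
    3, 2), some (0, 1, 3), some (0, 2, 3), some (0, 4, 3), some (1, 0, 3), some (1, 2, 3), some (1,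
    4, 3), some (2, 0, 3), some (2, 1, 3), some (2, 4, 3), some (4, 0, 3), some (4, 1, 3), some (4,
    2, 3), some (0, 1, 4), some (0, 2, 4), some (0, 3, 4), some (1, 0, 4), some (1, 2, 4), some (1,
    3, 4), some (2, 0, 4), some (2, 1, 4), some (2, 3, 4), some (3, 0, 4), some (3, 1, 4), some (3,
    2, 4)]

/-- for every letter, the rows of (a part of) the transition relation as bit masks -/
def rowsOf : Letter → List ℕ
  | .G => [1, 0, 0, 0, 0, 0, 0, 0, 0, 0, 0, 0, 0, 0, 0, 0, 0, 0, 0, 0, 0, 0, 0, 0, 0, 0, 0, 0, 0, 0, 0,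
    0, 0, 0, 0, 0, 0, 0, 0, 0, 0, 0, 0, 0, 0, 0, 0, 0, 0, 0, 0, 0, 0, 0, 0, 0, 0, 0, 0, 0, 0]
  | .F => [0, 867505878222241792, 109775240917155840, 0, 1444529580479086592, 15199648742375424, 0,
    183521684815347712, 25332747903959040, 0, 0, 0, 0, 887209126591987712, 121597189939003392, 0,
    1756403854674493440, 15199648742375424, 0, 243194379878006784, 25332747903959040, 0, 0, 0, 0,
    1621295865853378560, 121597189939003392, 0, 1945555039024054272, 109775240917155840, 0,
    243194379878006784, 183521684815347712, 0, 0, 0, 0, 1621295865853378560, 887209126591987712, 0,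
    1945555039024054272, 867505878222241792, 0, 1756403854674493440, 1444529580479086592, 0, 0, 0,
    0, 1621295865853378560, 887209126591987712, 121597189939003392, 1945555039024054272,
    867505878222241792, 109775240917155840, 1756403854674493440, 1444529580479086592,
    15199648742375424, 243194379878006784, 183521684815347712, 25332747903959040]
  | .I => [0, 211793427300352, 51707379712, 26807139041280, 352668354609152, 12623872, 3710853341184,
    86100672512, 21020672, 906190848, 44816037576704, 6184755576832, 1510318080, 216603790671872,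
    52881784832, 29694061707264, 428809534832640, 3082, 3710851744134, 104689827840, 5132,
    905969718, 59388123414528, 6184752906892, 1509949530, 395824185999360, 12910592,
    29686815719424, 474989023199232, 3152, 26800595927472, 25559040, 6240, 221238, 59373631438848,
    44805098832736, 368730, 96636764160, 23592960, 7249526784, 115964116992, 5760, 6543114672,
    28311552, 6912, 1597830, 14499053568, 10938745696, 2671244, 395920822763520, 216603814264832,
    52894695424, 475104987316224, 211793427306112, 51707382864, 428809563144192, 352668354616064,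
    12626954, 104715386880, 86100678752, 21025804]
  | .C 0 => [0, 0, 0, 0, 0, 0, 0, 0, 0, 0, 0, 0, 0, 0, 0, 0, 0, 3082, 390, 0, 5132, 54, 0, 652, 90, 0, 0,
    0, 0, 3152, 432, 0, 6240, 54, 0, 864, 90, 0, 0, 0, 0, 5760, 432, 0, 6912, 390, 0, 864, 652, 0,
    0, 0, 0, 5760, 3152, 0, 6912, 3082, 0, 6240, 5132]
  | .C 1 => [0, 0, 0, 0, 0, 12623872, 1597440, 0, 21020672, 221184, 0, 2670592, 368640, 0, 0, 0, 0, 0, 0,
    0, 0, 0, 0, 0, 0, 0, 12910592, 1769472, 0, 0, 0, 25559040, 0, 221184, 3538944, 0, 368640, 0,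
    23592960, 1769472, 0, 0, 0, 28311552, 0, 1597440, 3538944, 0, 2670592, 0, 23592960, 12910592,
    0, 0, 0, 28311552, 0, 12623872, 25559040, 0, 21020672]
  | .C 2 => [0, 0, 51707379712, 6543114240, 0, 0, 0, 86100672512, 0, 905969664, 10938744832, 0, 1509949440,
    0, 52881784832, 7247757312, 0, 0, 0, 104689827840, 0, 905969664, 14495514624, 0, 1509949440, 0,
    0, 0, 0, 0, 0, 0, 0, 0, 0, 0, 0, 96636764160, 0, 7247757312, 115964116992, 0, 6543114240, 0, 0,
    0, 14495514624, 10938744832, 0, 96636764160, 0, 52881784832, 115964116992, 0, 51707379712, 0,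
    0, 0, 104689827840, 86100672512, 0]
  | .C 3 => [0, 211793427300352, 0, 26800595927040, 352668354609152, 0, 3710851743744, 0, 0, 0,
    44805098831872, 6184752906240, 0, 216603790671872, 0, 29686813949952, 428809534832640, 0,
    3710851743744, 0, 0, 0, 59373627899904, 6184752906240, 0, 395824185999360, 0, 29686813949952,
    474989023199232, 0, 26800595927040, 0, 0, 0, 59373627899904, 44805098831872, 0, 0, 0, 0, 0, 0,
    0, 0, 0, 0, 0, 0, 0, 395824185999360, 216603790671872, 0, 474989023199232, 211793427300352, 0,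
    428809534832640, 352668354609152, 0, 0, 0, 0]
  | .L 0 => [1022, 0, 0, 0, 0, 0, 0, 0, 0, 0, 0, 0, 0, 0, 0, 0, 0, 0, 0, 0, 0, 0, 0, 0, 0, 0, 0, 0, 0, 0,
    0, 0, 0, 0, 0, 0, 0, 0, 0, 0, 0, 0, 0, 0, 0, 0, 0, 0, 0, 0, 0, 0, 0, 0, 0, 0, 0, 0, 0, 0, 0]
  | .L 1 => [4186112, 0, 0, 0, 0, 0, 0, 0, 0, 0, 0, 0, 0, 0, 0, 0, 0, 0, 0, 0, 0, 0, 0, 0, 0, 0, 0, 0, 0,
    0, 0, 0, 0, 0, 0, 0, 0, 0, 0, 0, 0, 0, 0, 0, 0, 0, 0, 0, 0, 0, 0, 0, 0, 0, 0, 0, 0, 0, 0, 0, 0]
  | .L 2 => [17146314752, 0, 0, 0, 0, 0, 0, 0, 0, 0, 0, 0, 0, 0, 0, 0, 0, 0, 0, 0, 0, 0, 0, 0, 0, 0, 0, 0,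
    0, 0, 0, 0, 0, 0, 0, 0, 0, 0, 0, 0, 0, 0, 0, 0, 0, 0, 0, 0, 0, 0, 0, 0, 0, 0, 0, 0, 0, 0, 0, 0,
    0]
  | .L 3 => [70231305224192, 0, 0, 0, 0, 0, 0, 0, 0, 0, 0, 0, 0, 0, 0, 0, 0, 0, 0, 0, 0, 0, 0, 0, 0, 0, 0,
    0, 0, 0, 0, 0, 0, 0, 0, 0, 0, 0, 0, 0, 0, 0, 0, 0, 0, 0, 0, 0, 0, 0, 0, 0, 0, 0, 0, 0, 0, 0, 0,
    0, 0]
  | .R 0 => [0, 0, 0, 0, 0, 0, 0, 0, 0, 0, 0, 0, 0, 0, 0, 0, 0, 1, 0, 0, 1, 0, 0, 1, 1, 0, 0, 0, 0, 1, 0,
    0, 1, 0, 0, 1, 1, 0, 0, 0, 0, 1, 0, 0, 1, 0, 0, 1, 1, 0, 0, 0, 0, 1, 1, 0, 1, 1, 0, 1, 1]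
  | .R 1 => [0, 0, 0, 0, 0, 1, 0, 0, 1, 0, 0, 1, 1, 0, 0, 0, 0, 0, 0, 0, 0, 0, 0, 0, 0, 0, 1, 0, 0, 0, 0,
    1, 0, 0, 1, 0, 1, 0, 1, 0, 0, 0, 0, 1, 0, 0, 1, 0, 1, 0, 1, 1, 0, 0, 0, 1, 0, 1, 1, 0, 1]
  | .R 2 => [0, 0, 1, 0, 0, 0, 0, 1, 0, 0, 1, 0, 1, 0, 1, 0, 0, 0, 0, 1, 0, 0, 1, 0, 1, 0, 0, 0, 0, 0, 0,
    0, 0, 0, 0, 0, 0, 1, 0, 0, 1, 0, 0, 0, 0, 0, 1, 1, 0, 1, 0, 1, 1, 0, 1, 0, 0, 0, 1, 1, 0]
  | .R 3 => [0, 1, 0, 0, 1, 0, 0, 0, 0, 0, 1, 1, 0, 1, 0, 0, 1, 0, 0, 0, 0, 0, 1, 1, 0, 1, 0, 0, 1, 0, 0,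
    0, 0, 0, 1, 1, 0, 0, 0, 0, 0, 0, 0, 0, 0, 0, 0, 0, 0, 1, 1, 0, 1, 1, 0, 1, 1, 0, 0, 0, 0]


/-- the states which are possible after a given letter -/
def vm : Letter → ℕ
  | .G => 1
  | .F => 2305280059260272640
  | .I => 562949953421310
  | .C 0 => 8190
  | .C 1 => 33546240
  | .C 2 => 137405399040
  | .C 3 => 562812514467840
  | .L 0 => 1022
  | .L 1 => 4186112
  | .L 2 => 17146314752
  | .L 3 => 70231305224192
  | .R 0 => 1
  | .R 1 => 1
  | .R 2 => 1
  | .R 3 => 1

/-- all letters -/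
def allL : List Letter :=
  [.G, .F, .I, .C 0, .C 1, .C 2, .C 3, .L 0, .L 1, .L 2, .L 3, .R 0, .R 1, .R 2, .R 3]

theorem mem_allL (l : Letter) : l ∈ allL := by
  cases l with
  | G => decide
  | F => decide
  | I => decide
  | C a => fin_cases a <;> decide
  | L a => fin_cases a <;> decide
  | R a => fin_cases a <;> decide

def isZ : Letter → Bool
  | .L _ => true
  | .R _ => true
  | _ => false

def isG : Letter → Bool
  | .G => true
  | _ => false

def isF : Letter → Bool
  | .F => true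
  | _ => false

def isI : Letter → Bool
  | .I => true
  | _ => false

def isL : Letter → Bool
  | .L _ => true
  | _ => false

def isR : Letter → Bool
  | .R _ => true
  | _ => false

def isC : Letter → Bool
  | .C _ => true
  | _ => false

/-- consecutive letters -/
def ok2 (a b : Letter) : Bool :=
  (!(isG a) || isG b || isL b) && (!(isR a) || isG b) &&
  (!(isG b) || isG a || isR a) && (!(isL b) || isG a) &&
  (!(isI a) || !(isF b)) && (!(isF a) || !(isI b)) &&
  (!(isU a && isU b && !(isI a) && !(isI b)) || colOf a != colOf b) &&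
  !(isZ a && isZ b)

/-- three consecutive letters -/
def ok3 (a b c : Letter) : Bool :=
  ok2 a b && ok2 b c && (!(isC b) || !(isU a && isU c))

/-- preimage of a bit set -/
def pre : List ℕ → ℕ → ℕ
  | [], _ => 0
  | r :: rs, X => Nat.bit (Nat.land r X != 0) (pre rs X)

def full : ℕ := 2 ^ 61 - 1

/-- states from which two letters can be read -/
def A2 (l1 l2 : Letter) : ℕ := pre (rowsOf l1) (pre (rowsOf l2) full)

def sub (a b : ℕ) : Bool := Nat.land a b == a

def plCheck : Bool :=
  allL.all fun l0 => allL.all fun l1 => !ok2 l0 l1 || allL.all fun l2 => !ok3 l0 l1 l2 ||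
    allL.all fun l3 => !ok3 l1 l2 l3 ||
      sub (Nat.land (vm l0) (A2 l1 l2)) (pre (rowsOf l1) (Nat.land (vm l1) (A2 l2 l3)))

theorem plCheck_true : plCheck = true := by decide +kernel


/-- every transition of the table is a transition -/
def soundCheck : Bool :=
  allL.all fun l => (List.range 61).all fun i => decide ((rowsOf l).getD i 0 < 2 ^ 61) &&
    (List.range 61).all fun j => !((rowsOf l).getD i 0).testBit j || tr (sts.getD i none) l (sts.getD j none)

theorem soundCheck_true : soundCheck = true := by decide +kernel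

def vmCheck : Bool :=
  allL.all fun l => (List.range 61).all fun i => sub ((rowsOf l).getD i 0) (vm l)

theorem vmCheck_true : vmCheck = true := by decide +kernel

def markOk (l0 l1 l2 l3 l4 l5 : Letter) : Bool :=
  (List.range 61).any fun j => (Nat.land (vm l3) (A2 l4 l5)).testBit j &&
    sub (Nat.land (vm l0) (A2 l1 l2)) (pre (rowsOf l1) (pre (rowsOf l2) (pre (rowsOf l3) (2 ^ j))))

def allM : List Letter := [.F, .I, .C 0, .C 1, .C 2, .C 3]

def markA : Bool :=
  allM.all fun l0 => allM.all fun l4 => !ok3 l0 .F .F || !ok3 .F .F l4 || allM.all fun l5 => !ok3 .F l4 l5 ||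
    markOk l0 .F .F .F l4 l5

theorem markA_true : markA = true := by decide +kernel

def markB : Bool :=
  allM.all fun l1 => !isC l1 || allM.all fun l3 => !ok3 l1 .I l3 || allM.all fun l4 =>
    !ok3 .I l3 l4 || allM.all fun l5 => !ok3 l3 l4 l5 || markOk .F l1 .I l3 l4 l5

theorem markB_true : markB = true := by decide +kernel

def markC : Bool :=
  allM.all fun l1 => !isC l1 || allM.all fun l2 => !isC l2 || !ok3 .F l1 l2 || allM.all fun l4 =>
    !ok3 l2 .F l4 || (l4 == l2) || allM.all fun l5 => !ok3 .F l4 l5 || markOk .F l1 l2 .F l4 l5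

theorem markC_true : markC = true := by decide +kernel

def markD : Bool :=
  allM.all fun l0 => !isC l0 || allM.all fun l2 => !isC l2 || (l0 == l2) || allM.all fun l4 =>
    !ok3 l2 .F l4 || (l4 == l2) || allM.all fun l5 => !ok3 .F l4 l5 || markOk l0 .F l2 .F l4 l5

theorem markD_true : markD = true := by decide +kernel

def eIdx (a : Letter) : ℕ := 
  match a with
  | .C 0 => sts.idxOf (some (3, 1, 4))
  | .C 1 => sts.idxOf (some (3, 0, 4))
  | .C 2 => sts.idxOf (some (1, 0, 4))
  | .C 3 => sts.idxOf (some (1, 0, 4))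
  | _ => 0

def markE : Bool :=
  allM.all fun a => !isC a || allM.all fun b => !isC b ||
    (pre (rowsOf a) (pre (rowsOf .F) (pre (rowsOf .F) (2 ^ (eIdx b))))).testBit (eIdx a)

theorem markE_true : markE = true := by decide +kernel

def markI : Bool :=
  (List.range 61).any fun j => (Nat.land (vm .I) (A2 .I .I)).testBit j &&
    sub (Nat.land (vm .I) (A2 .I .I))
      (pre (rowsOf .I) (pre (rowsOf .I) (pre (rowsOf .I) (pre (rowsOf .I) (2 ^ j)))))

theorem markI_true : markI = true := by decide +kernel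

def markI3 : Bool :=
  (List.range 61).any fun j => (pre (rowsOf .I) (pre (rowsOf .I) (pre (rowsOf .I) (2 ^ j)))).testBit j

theorem markI3_true : markI3 = true := by decide +kernel

/-- the state `none` is alive before `G` -/
def gCheck : Bool :=
  allL.all fun l1 => !ok2 .G l1 || allL.all fun l2 => !ok3 .G l1 l2 ||
    (Nat.land (vm .G) (A2 l1 l2)).testBit 0

theorem gCheck_true : gCheck = true := by decide +kernel

theorem vmG : vm .G = 1 := by decide

end TT
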