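import Mathlib

namespace TT

open Classical in
theorem greedy4 {V : Type*} [Fintype V] (H : SimpleGraph V) (rank : V → ℕ)
    (h : ∀ v, (Finset.univ.filter (fun u => H.Adj v u ∧ rank u ≤ rank v)).card ≤ 3) :
    ∃ c : V → Fin 4, ∀ u v, H.Adj u v → c u ≠ c v := by
  have key : ∀ n : ℕ, ∀ S : Finset V, S.card = n →
      ∃ c : V → Fin 4, ∀ u ∈ S, ∀ v ∈ S, H.Adj u v → c u ≠ c v := by
    intro n
    induction n with
    | zero =>
      intro S hS
      rw [Finset.card_eq_zero] at hS
      subst hS
      exact ⟨fun _ => 0, by simp⟩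
    | succ n ih =>
      intro S hS
      have hne : S.Nonempty := by
        rw [← Finset.card_pos]; omega
      obtain ⟨v, hvS, hv⟩ := Finset.exists_max_image S rank hne
      obtain ⟨c, hc⟩ := ih (S.erase v) (by rw [Finset.card_erase_of_mem hvS]; omega)
      let N := Finset.univ.filter (fun u => H.Adj v u ∧ rank u ≤ rank v)
      have hcard : (N.image c).card < (Finset.univ : Finset (Fin 4)).card := by
        have h1 : (N.image c).card ≤ N.card := Finset.card_image_le
        have h2 := h v
        simp only [Finset.card_univ, Fintype.card_fin]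
        have h3 : N.card ≤ 3 := h2
        omega
      obtain ⟨a, -, ha⟩ := Finset.exists_mem_notMem_of_card_lt_card hcard
      have hnb : ∀ u ∈ S, H.Adj v u → c u ≠ a := by
        intro u hu huv hcu
        apply ha
        rw [Finset.mem_image]
        exact ⟨u, by simp [N, huv, hv u hu], hcu⟩
      refine ⟨Function.update c v a, ?_⟩
      intro u hu w hw huw
      by_cases huv : u = v
      · subst huv
        have hwu : w ≠ u := huw.ne'
        rw [Function.update_self, Function.update_of_ne hwu]
        exact fun e => hnb w hw huw e.symm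
      · by_cases hwv : w = v
        · subst hwv
          rw [Function.update_self, Function.update_of_ne huv]
          exact hnb u hu huw.symm
        · rw [Function.update_of_ne huv, Function.update_of_ne hwv]
          exact hc u (by simp [huv, hu]) w (by simp [hwv, hw]) huw
  obtain ⟨c, hc⟩ := key _ Finset.univ rfl
  exact ⟨c, fun u v huv => hc u (Finset.mem_univ _) v (Finset.mem_univ _) huv⟩

open Classical in
theorem exists_classes {V : Type*} [Fintype V] (G : SimpleGraph V) (k : ℕ)
    (R Z : Set V) (f0 : V → Fin k)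
    (hdeg : ∀ v ∈ R, v ∉ Z → (Finset.univ.filter (fun u => G.Adj v u ∧ u ∈ R)).card ≤ 2 * k) :
    ∃ cl : V → Fin k, (∀ z ∈ Z, cl z = f0 z) ∧
      ∀ v ∈ R, v ∉ Z →
        (Finset.univ.filter (fun u => G.Adj v u ∧ u ∈ R ∧ cl u = cl v)).card ≤ 2 := by
  let S : (V → Fin k) → Finset (V × V) := fun cl => Finset.univ.filter
    (fun p => G.Adj p.1 p.2 ∧ p.1 ∈ R ∧ p.2 ∈ R ∧ cl p.1 = cl p.2)
  let T : V → (V → Fin k) → Finset (V × V) := fun v cl => Finset.univ.filter
    (fun p => G.Adj p.1 p.2 ∧ p.1 ∈ R ∧ p.2 ∈ R ∧ cl p.1 = cl p.2 ∧ p.1 ≠ v ∧ p.2 ≠ v)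
  let D : V → (V → Fin k) → Fin k → Finset V := fun v cl j => Finset.univ.filter
    (fun u => G.Adj v u ∧ u ∈ R ∧ cl u = j)
  have hS : ∀ v ∈ R, ∀ cl, (S cl).card = (T v cl).card + 2 * (D v cl (cl v)).card := by
    intro v hv cl
    have e : S cl = (T v cl) ∪ ((D v cl (cl v)).image (fun u => (v, u)) ∪
        (D v cl (cl v)).image (fun u => (u, v))) := by
      ext ⟨a, b⟩
      simp only [S, T, D, Finset.mem_union, Finset.mem_image, Finset.mem_filter, Finset.mem_univ,
        true_and, Prod.mk.injEq]
      constructor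
      · rintro ⟨h1, h2, h3, h4⟩
        by_cases ha : a = v
        · right; left
          subst ha
          exact ⟨b, ⟨h1, h3, h4.symm⟩, rfl, rfl⟩
        · by_cases hb : b = v
          · right; right
            subst hb
            exact ⟨a, ⟨h1.symm, h2, h4⟩, rfl, rfl⟩
          · left; exact ⟨h1, h2, h3, h4, ha, hb⟩
      · rintro (⟨h1, h2, h3, h4, -, -⟩ | ⟨u, ⟨h1, h2, h3⟩, rfl, rfl⟩ | ⟨u, ⟨h1, h2, h3⟩, rfl, rfl⟩)
        · exact ⟨h1, h2, h3, h4⟩
        · exact ⟨h1, hv, h2, h3.symm⟩
        · exact ⟨h1.symm, h2, hv, h3⟩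
    have d1 : Disjoint ((D v cl (cl v)).image (fun u => (v, u)))
        ((D v cl (cl v)).image (fun u => (u, v))) := by
      rw [Finset.disjoint_left]
      rintro ⟨a, b⟩ h1 h2
      simp only [D, Finset.mem_image, Finset.mem_filter, Finset.mem_univ,
        true_and, Prod.mk.injEq] at h1 h2
      obtain ⟨u, ⟨h3, -⟩, rfl, rfl⟩ := h1
      obtain ⟨u', ⟨h4, -⟩, h5, h6⟩ := h2
      rw [h6] at h3
      exact G.loopless.irrefl _ h3
    have d2 : Disjoint (T v cl) ((D v cl (cl v)).image (fun u => (v, u)) ∪
        (D v cl (cl v)).image (fun u => (u, v))) := by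
      rw [Finset.disjoint_left]
      rintro ⟨a, b⟩ h1 h2
      simp only [T, D, Finset.mem_union, Finset.mem_image, Finset.mem_filter, Finset.mem_univ,
        true_and, Prod.mk.injEq] at h1 h2
      rcases h2 with ⟨u, -, h3, -⟩ | ⟨u, -, -, h3⟩
      · exact h1.2.2.2.2.1 h3.symm
      · exact h1.2.2.2.2.2 h3.symm
    rw [e, Finset.card_union_of_disjoint d2, Finset.card_union_of_disjoint d1,
      Finset.card_image_of_injective _ (fun a b h => (Prod.mk.inj h).2),
      Finset.card_image_of_injective _ (fun a b h => (Prod.mk.inj h).1)]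
    ring
  let X := {cl : V → Fin k // ∀ z ∈ Z, cl z = f0 z}
  have : Nonempty X := ⟨⟨f0, fun _ _ => rfl⟩⟩
  obtain ⟨⟨cl, hcl⟩, hmin⟩ := Finite.exists_min (fun cl : X => (S cl.1).card)
  refine ⟨cl, hcl, fun v hv hvZ => ?_⟩
  have hle : ∀ j, (D v cl (cl v)).card ≤ (D v cl j).card := by
    intro j
    have hcl' : ∀ z ∈ Z, Function.update cl v j z = f0 z := by
      intro z hz
      rw [Function.update_of_ne (fun h : z = v => hvZ (h ▸ hz))]
      exact hcl z hz
    have h1 := hmin ⟨Function.update cl v j, hcl'⟩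
    simp only at h1
    rw [hS v hv, hS v hv] at h1
    have hT : T v (Function.update cl v j) = T v cl := by
      ext ⟨a, b⟩
      simp only [T, Finset.mem_filter, Finset.mem_univ, true_and]
      constructor
      · rintro ⟨h1, h2, h3, h4, h5, h6⟩
        rw [Function.update_of_ne h5, Function.update_of_ne h6] at h4
        exact ⟨h1, h2, h3, h4, h5, h6⟩
      · rintro ⟨h1, h2, h3, h4, h5, h6⟩
        rw [Function.update_of_ne h5, Function.update_of_ne h6]
        exact ⟨h1, h2, h3, h4, h5, h6⟩
    have hD : D v (Function.update cl v j) (Function.update cl v j v) = D v cl j := by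
      ext u
      simp only [D, Finset.mem_filter, Finset.mem_univ, true_and, Function.update_self]
      constructor
      · rintro ⟨h1, h2, h3⟩
        rw [Function.update_of_ne h1.ne'] at h3
        exact ⟨h1, h2, h3⟩
      · rintro ⟨h1, h2, h3⟩
        rw [Function.update_of_ne h1.ne']
        exact ⟨h1, h2, h3⟩
    rw [hT, hD] at h1
    omega
  have hsum : ∑ j : Fin k, (D v cl j).card =
      (Finset.univ.filter (fun u => G.Adj v u ∧ u ∈ R)).card := by
    rw [Finset.card_eq_sum_card_fiberwise (f := cl) (t := Finset.univ) (by simp)]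
    apply Finset.sum_congr rfl
    intro j _
    congr 1
    ext u
    simp only [D, Finset.mem_filter, Finset.mem_univ, true_and, and_assoc]
  have hk : k * (D v cl (cl v)).card ≤ 2 * k := by
    calc k * (D v cl (cl v)).card = ∑ _j : Fin k, (D v cl (cl v)).card := by simp
      _ ≤ ∑ j : Fin k, (D v cl j).card := Finset.sum_le_sum (fun j _ => hle j)
      _ ≤ 2 * k := by rw [hsum]; exact hdeg v hv hvZ
  have hk0 : 0 < k := lt_of_le_of_lt (Nat.zero_le _) (cl v).2
  have : (D v cl (cl v)).card ≤ 2 := by
    by_contra hc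
    push Not at hc
    nlinarith
  exact this

end TT
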