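import Pool.Agent.Helper30.TT.Cyc
import Pool.Agent.Helper30.TT.Classes

namespace TT

theorem exists_specials {W : Type*} (σ : Equiv.Perm W) (N P Q : W → Prop) :
    ∃ E : W → Prop, (∀ a b, E a → E b → σ.SameCycle a b → a = b) ∧
      (∀ a b, E a → σ.SameCycle a b → N b) ∧
      (∀ w, (∀ b, σ.SameCycle w b → N b) → (∃ b, σ.SameCycle w b ∧ P b) →
        ∃ b, σ.SameCycle w b ∧ P b ∧ E b) ∧
      (∀ w, (∀ b, σ.SameCycle w b → N b) → (¬ ∃ b, σ.SameCycle w b ∧ P b) →
        (∃ b, σ.SameCycle w b ∧ Q b) → ∃ b, σ.SameCycle w b ∧ Q b ∧ E b) := by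
  classical
  let S := Equiv.Perm.SameCycle.setoid σ
  let r : W → W := fun w => (Quotient.mk S w).out
  have hr : ∀ w, σ.SameCycle (r w) w := fun w => Quotient.mk_out (s := S) w
  have hrr : ∀ a b, σ.SameCycle a b → r a = r b := by
    intro a b h
    have : Quotient.mk S a = Quotient.mk S b := Quotient.sound h
    simp only [r, this]
  let e : W → Option W := fun w0 =>
    if ∀ b, σ.SameCycle w0 b → N b then
      if h2 : ∃ b, σ.SameCycle w0 b ∧ P b then some h2.choose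
      else if h3 : ∃ b, σ.SameCycle w0 b ∧ Q b then some h3.choose
      else none
    else none
  refine ⟨fun a => e (r a) = some a, ?_, ?_, ?_, ?_⟩
  · intro a b ha hb hab
    rw [hrr a b hab] at ha
    rw [ha] at hb
    exact Option.some.inj hb
  · intro a b ha hab
    by_cases h : ∀ b, σ.SameCycle (r a) b → N b
    · exact h b ((hr a).trans hab)
    · simp only [e, if_neg h] at ha
      exact absurd ha (by simp)
  · intro w hN hP
    have hN' : ∀ b, σ.SameCycle (r w) b → N b := fun b hb => hN b ((hr w).symm.trans hb)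
    have hP' : ∃ b, σ.SameCycle (r w) b ∧ P b := by
      obtain ⟨b, hb, hb'⟩ := hP
      exact ⟨b, (hr w).trans hb, hb'⟩
    have hspec := hP'.choose_spec
    refine ⟨hP'.choose, (hr w).symm.trans hspec.1, hspec.2, ?_⟩
    have h1 : r (hP'.choose) = r w := (hrr _ _ ((hr w).symm.trans hspec.1)).symm
    simp only
    rw [h1]
    simp only [e]
    rw [if_pos hN', dif_pos hP']
  · intro w hN hP hQ
    have hN' : ∀ b, σ.SameCycle (r w) b → N b := fun b hb => hN b ((hr w).symm.trans hb)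
    have hP' : ¬ ∃ b, σ.SameCycle (r w) b ∧ P b := by
      rintro ⟨b, hb, hb'⟩
      exact hP ⟨b, (hr w).symm.trans hb, hb'⟩
    have hQ' : ∃ b, σ.SameCycle (r w) b ∧ Q b := by
      obtain ⟨b, hb, hb'⟩ := hQ
      exact ⟨b, (hr w).trans hb, hb'⟩
    have hspec := hQ'.choose_spec
    refine ⟨hQ'.choose, (hr w).symm.trans hspec.1, hspec.2, ?_⟩
    have h1 : r (hQ'.choose) = r w := (hrr _ _ ((hr w).symm.trans hspec.1)).symm
    simp only
    rw [h1]
    simp only [e]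
    rw [if_pos hN', dif_neg hP', dif_pos hQ']

section

variable {V : Type*} (σ : Equiv.Perm (V × Bool)) (U : V → Prop)

/-- a vertex of the first copy with a colour of the palette -/
def Uw (w : V × Bool) : Prop := w.2 = false ∧ U w.1

open Classical in
/-- the letters -/
noncomputable def lab (c : V → Fin 4) (w : V × Bool) : Letter :=
  if w.2 = true then .G else if ¬ U w.1 then .F else if (σ w).2 = true then .R (c w.1)
  else if (σ.symm w).2 = true then .L (c w.1)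
  else if Uw U (σ w) ∧ Uw U (σ.symm w) then .I else .C (c w.1)

variable {σ U} {c : V → Fin 4} {w : V × Bool}

theorem lab_G (h : w.2 = true) : lab σ U c w = .G := by simp [lab, h]

theorem lab_F (h : w.2 = false) (hU : ¬ U w.1) : lab σ U c w = .F := by simp [lab, h, hU]

theorem lab_R (h : w.2 = false) (hU : U w.1) (h' : (σ w).2 = true) :
    lab σ U c w = .R (c w.1) := by simp [lab, h, hU, h']

theorem lab_L (h : w.2 = false) (hU : U w.1) (h' : (σ w).2 = false)
    (h'' : (σ.symm w).2 = true) : lab σ U c w = .L (c w.1) := by simp [lab, h, hU, h', h'']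

theorem lab_I (h : w.2 = false) (hU : U w.1) (h' : (σ w).2 = false)
    (h'' : (σ.symm w).2 = false) (h1 : U (σ w).1) (h2 : U (σ.symm w).1) :
    lab σ U c w = .I := by simp [lab, h, hU, h', h'', Uw, h1, h2]

theorem lab_C (h : w.2 = false) (hU : U w.1) (h' : (σ w).2 = false)
    (h'' : (σ.symm w).2 = false) (h1 : ¬ (U (σ w).1 ∧ U (σ.symm w).1)) :
    lab σ U c w = .C (c w.1) := by
  unfold lab
  rw [if_neg (by simp [h]), if_neg (by simp [hU]), if_neg (by simp [h']), if_neg (by simp [h'']),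
    if_neg]
  rintro ⟨h3, h4⟩
  exact h1 ⟨h3.2, h4.2⟩

/-- case analysis for the letters -/
theorem lab_cases (σ : Equiv.Perm (V × Bool)) (U : V → Prop) (c : V → Fin 4) (w : V × Bool) :
    (w.2 = true ∧ lab σ U c w = .G) ∨
    (w.2 = false ∧ ¬ U w.1 ∧ lab σ U c w = .F) ∨
    (w.2 = false ∧ U w.1 ∧ (σ w).2 = true ∧ lab σ U c w = .R (c w.1)) ∨
    (w.2 = false ∧ U w.1 ∧ (σ w).2 = false ∧ (σ.symm w).2 = true ∧ lab σ U c w = .L (c w.1)) ∨
    (w.2 = false ∧ U w.1 ∧ (σ w).2 = false ∧ (σ.symm w).2 = false ∧ U (σ w).1 ∧ U (σ.symm w).1 ∧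
      lab σ U c w = .I) ∨
    (w.2 = false ∧ U w.1 ∧ (σ w).2 = false ∧ (σ.symm w).2 = false ∧
      ¬ (U (σ w).1 ∧ U (σ.symm w).1) ∧ lab σ U c w = .C (c w.1)) := by
  by_cases h0 : w.2 = true
  · exact Or.inl ⟨h0, lab_G h0⟩
  have h0' : w.2 = false := by simpa using h0
  right
  by_cases hU : U w.1
  swap
  · exact Or.inl ⟨h0', hU, lab_F h0' hU⟩
  right
  by_cases h1 : (σ w).2 = true
  · exact Or.inl ⟨h0', hU, h1, lab_R h0' hU h1⟩
  have h1' : (σ w).2 = false := by simpa using h1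
  right
  by_cases h2 : (σ.symm w).2 = true
  · exact Or.inl ⟨h0', hU, h1', h2, lab_L h0' hU h1' h2⟩
  have h2' : (σ.symm w).2 = false := by simpa using h2
  right
  by_cases h3 : U (σ w).1 ∧ U (σ.symm w).1
  · exact Or.inl ⟨h0', hU, h1', h2', h3.1, h3.2, lab_I h0' hU h1' h2' h3.1 h3.2⟩
  · exact Or.inr ⟨h0', hU, h1', h2', h3, lab_C h0' hU h1' h2' h3⟩

theorem isU_lab (σ : Equiv.Perm (V × Bool)) (U : V → Prop) (c : V → Fin 4) (w : V × Bool) :
    isU (lab σ U c w) = true ↔ w.2 = false ∧ U w.1 := by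
  rcases lab_cases σ U c w with ⟨h1, h2⟩ | ⟨h1, h2, h3⟩ | ⟨h1, h2, h3, h4⟩ | ⟨h1, h2, h3, h4, h5⟩ |
    ⟨h1, h2, h3, h4, h5, h6, h7⟩ | ⟨h1, h2, h3, h4, h5, h6⟩
  · rw [h2]; simp [isU, h1]
  · rw [h3]; simp [isU, h2]
  · rw [h4]; simp [isU, h1, h2]
  · rw [h5]; simp [isU, h1, h2]
  · rw [h7]; simp [isU, h1, h2]
  · rw [h6]; simp [isU, h1, h2]

end

section main

variable {V : Type*} {G : SimpleGraph V} {σ : Equiv.Perm (V × Bool)} {U Z : V → Prop}

/-- the hypotheses on one class -/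
structure Setup (G : SimpleGraph V) (σ : Equiv.Perm (V × Bool)) (U Z : V → Prop) : Prop where
  h1 : ∀ w, σ w ≠ w
  h2 : ∀ w, σ (σ w) ≠ w
  hadj : ∀ w, (w.2 = (σ w).2 ∧ G.Adj w.1 (σ w).1) ∨
    (w.1 = (σ w).1 ∧ w.2 ≠ (σ w).2 ∧ Z w.1 ∧ U w.1)
  hZU : ∀ v, U v → Z v → (σ (v, false)).2 = true ∨ (σ.symm (v, false)).2 = true
  hZ : ∀ u v, Z u → Z v → ¬ G.Adj u v

/-- adjacency to be respected by the colouring `c` -/
def HAdj (G : SimpleGraph V) (σ : Equiv.Perm (V × Bool)) (U : V → Prop) (E : V × Bool → Prop)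
    (u v : V) : Prop :=
  u ≠ v ∧ U u ∧ U v ∧ (G.Adj u v ∨
    (E (u, false) ∧ (((v, false) = σ (σ (u, false)) ∧ ¬ Uw U (σ (u, false))) ∨
      ((v, false) = σ.symm (σ.symm (u, false)) ∧ ¬ Uw U (σ.symm (u, false))))) ∨
    (E (v, false) ∧ (((u, false) = σ (σ (v, false)) ∧ ¬ Uw U (σ (v, false))) ∨
      ((u, false) = σ.symm (σ.symm (v, false)) ∧ ¬ Uw U (σ.symm (v, false))))))

theorem HAdj.symm {E : V × Bool → Prop} {u v : V} (h : HAdj G σ U E u v) :
    HAdj G σ U E v u := by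
  obtain ⟨h1, h2, h3, h4⟩ := h
  refine ⟨h1.symm, h3, h2, ?_⟩
  rcases h4 with h4 | h4 | h4
  · exact Or.inl h4.symm
  · exact Or.inr (Or.inr h4)
  · exact Or.inr (Or.inl h4)

theorem Setup.dummy (S : Setup G σ U Z) {w : V × Bool} (h : w.2 = false) (h' : (σ w).2 = true) :
    Z w.1 ∧ U w.1 ∧ (σ w).1 = w.1 := by
  rcases S.hadj w with ⟨h1, -⟩ | ⟨h1, h2, h3, h4⟩
  · rw [h, h'] at h1; exact absurd h1 (by simp)
  · exact ⟨h3, h4, h1.symm⟩

theorem Setup.dummy' (S : Setup G σ U Z) {w : V × Bool} (h : w.2 = true) (h' : (σ w).2 = false) :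
    Z (σ w).1 ∧ U (σ w).1 ∧ (σ w).1 = w.1 := by
  rcases S.hadj w with ⟨h1, -⟩ | ⟨h1, h2, h3, h4⟩
  · rw [h, h'] at h1; exact absurd h1 (by simp)
  · rw [← h1]; exact ⟨h3, h4, rfl⟩

theorem Setup.real (S : Setup G σ U Z) {w : V × Bool} (h : w.2 = false) (h' : (σ w).2 = false) :
    G.Adj w.1 (σ w).1 := by
  rcases S.hadj w with ⟨-, h1⟩ | ⟨h1, h2, h3, h4⟩
  · exact h1
  · rw [h, h'] at h2; exact absurd rfl h2

/-- after entering the first copy we do not leave it at once -/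
theorem Setup.stay (S : Setup G σ U Z) {w : V × Bool} (h : w.2 = true) (h' : (σ w).2 = false) :
    (σ (σ w)).2 = false := by
  by_contra hc
  have hc' : (σ (σ w)).2 = true := by simpa using hc
  obtain ⟨-, -, h3⟩ := S.dummy' h h'
  obtain ⟨-, -, h4⟩ := S.dummy h' hc'
  apply S.h2 w
  ext
  · rw [h4, h3]
  · rw [hc', h]

theorem exists_c [Finite V] (S : Setup G σ U Z)
    (hcard : ∀ v, U v → ¬ Z v → Set.ncard {u | G.Adj v u ∧ U u} ≤ 2)
    (E : V × Bool → Prop) (E1 : ∀ a b, E a → E b → σ.SameCycle a b → a = b)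
    (E2 : ∀ a b, E a → σ.SameCycle a b → b.2 = false) :
    ∃ c : V → Fin 4, ∀ u v, HAdj G σ U E u v → c u ≠ c v := by
  classical
  have : Fintype V := Fintype.ofFinite V
  let H : SimpleGraph V :=
    { Adj := HAdj G σ U E
      symm := ⟨fun u v h => h.symm⟩
      loopless := ⟨fun u h => h.1 rfl⟩ }
  let rank : V → ℕ := fun v => if Z v then 0 else if E (v, false) then 1 else 2
  -- same cycle facts
  have sc1 : ∀ w : V × Bool, σ.SameCycle w (σ w) := fun w =>
    (Equiv.Perm.sameCycle_apply_right (f := σ)).mpr (Equiv.Perm.SameCycle.refl σ w)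
  have sc2 : ∀ w : V × Bool, σ.SameCycle w (σ (σ w)) := fun w => (sc1 w).trans (sc1 _)
  have sc3 : ∀ w : V × Bool, σ.SameCycle w (σ.symm w) := fun w => by
    have := sc1 (σ.symm w)
    rw [Equiv.apply_symm_apply] at this
    exact this.symm
  have sc4 : ∀ w : V × Bool, σ.SameCycle w (σ.symm (σ.symm w)) := fun w => (sc3 w).trans (sc3 _)
  have hnoZ : ∀ a : V × Bool, ∀ v, E a → σ.SameCycle a (v, false) → U v → ¬ Z v := by
    intro a v hE hs hU hZv
    rcases S.hZU v hU hZv with h | h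
    · have := E2 a _ hE (hs.trans (sc1 _))
      rw [this] at h; simp at h
    · have := E2 a _ hE (hs.trans (sc3 _))
      rw [this] at h; simp at h
  -- the D-edges stay in the cycle
  have hD : ∀ u v, (E (u, false) ∧ (((v, false) = σ (σ (u, false)) ∧ ¬ Uw U (σ (u, false))) ∨
      ((v, false) = σ.symm (σ.symm (u, false)) ∧ ¬ Uw U (σ.symm (u, false))))) →
      E (u, false) ∧ σ.SameCycle (u, false) (v, false) := by
    rintro u v ⟨h1, h2 | h2⟩
    · refine ⟨h1, ?_⟩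
      rw [h2.1]; exact sc2 _
    · refine ⟨h1, ?_⟩
      rw [h2.1]; exact sc4 _
  obtain ⟨c, hc⟩ := greedy4 H rank (by
    intro v
    by_cases hU : U v
    swap
    · rw [Finset.card_eq_zero.mpr]
      · norm_num
      · rw [Finset.filter_eq_empty_iff]
        rintro u - ⟨h, -⟩
        exact hU h.2.1
    by_cases hZv : Z v
    · rw [Finset.card_eq_zero.mpr]
      · norm_num
      · rw [Finset.filter_eq_empty_iff]
        rintro u - ⟨⟨-, -, hUu, h⟩, hr⟩
        have hZu : Z u := by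
          by_contra hZu
          simp only [rank, if_pos hZv, if_neg hZu] at hr
          split_ifs at hr <;> omega
        rcases h with h | h | h
        · exact S.hZ v u hZv hZu h
        · obtain ⟨h1, h2⟩ := hD _ _ h
          exact hnoZ _ v h1 (Equiv.Perm.SameCycle.refl σ _) hU hZv
        · obtain ⟨h1, h2⟩ := hD _ _ h
          exact hnoZ _ u h1 (Equiv.Perm.SameCycle.refl σ _) hUu hZu
    have hGcard : (Finset.univ.filter (fun u => G.Adj v u ∧ U u)).card ≤ 2 := by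
      have := hcard v hU hZv
      rwa [Set.ncard_eq_toFinset_card', Set.toFinset_ofPred] at this
    by_cases hE : E (v, false)
    · refine le_trans (Finset.card_le_card (t := Finset.univ.filter (fun u => G.Adj v u ∧ U u))
        ?_) (by omega)
      intro u hu
      rw [Finset.mem_filter] at hu ⊢
      obtain ⟨-, ⟨hne, -, hUu, h⟩, hr⟩ := hu
      refine ⟨Finset.mem_univ _, ?_, hUu⟩
      rcases h with h | h | h
      · exact h
      · exfalso
        obtain ⟨h1, h2⟩ := hD _ _ h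
        have hZu := hnoZ _ u h1 h2 hUu
        by_cases hEu : E (u, false)
        · have := E1 _ _ hE hEu h2
          exact hne (Prod.mk.inj this).1
        · simp only [rank, if_neg hZv, if_pos hE, if_neg hZu, if_neg hEu] at hr
          omega
      · exfalso
        obtain ⟨h1, h2⟩ := hD _ _ h
        have := E1 _ _ h1 hE h2
        exact hne (Prod.mk.inj this).1.symm
    · have hsub : (Finset.univ.filter (fun u => H.Adj v u ∧ rank u ≤ rank v)) ⊆
          (Finset.univ.filter (fun u => G.Adj v u ∧ U u)) ∪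
          (Finset.univ.filter (fun u => E (u, false) ∧ σ.SameCycle (u, false) (v, false))) := by
        intro u hu
        rw [Finset.mem_filter] at hu
        rw [Finset.mem_union, Finset.mem_filter, Finset.mem_filter]
        obtain ⟨-, ⟨hne, -, hUu, h⟩, hr⟩ := hu
        rcases h with h | h | h
        · exact Or.inl ⟨Finset.mem_univ _, h, hUu⟩
        · exact absurd h.1 hE
        · exact Or.inr ⟨Finset.mem_univ _, hD _ _ h⟩
      have h1 : (Finset.univ.filter
          (fun u => E (u, false) ∧ σ.SameCycle (u, false) (v, false))).card ≤ 1 := by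
        rw [Finset.card_le_one]
        intro a ha b hb
        rw [Finset.mem_filter] at ha hb
        have := E1 _ _ ha.2.1 hb.2.1 (ha.2.2.trans hb.2.2.symm)
        exact (Prod.mk.inj this).1
      calc _ ≤ _ := Finset.card_le_card hsub
        _ ≤ _ := Finset.card_union_le _ _
        _ ≤ 3 := by omega)
  exact ⟨c, hc⟩

theorem hok2 (S : Setup G σ U Z) {E : V × Bool → Prop} {c : V → Fin 4}
    (hc : ∀ u v, HAdj G σ U E u v → c u ≠ c v) (w : V × Bool) :
    ok2 (lab σ U c w) (lab σ U c (σ w)) = true := by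
  -- colour clause
  have hcol : w.2 = false → (σ w).2 = false → U w.1 → U (σ w).1 → c w.1 ≠ c (σ w).1 := by
    intro h h' hU hU'
    have hadj := S.real h h'
    exact hc _ _ ⟨hadj.ne, hU, hU', Or.inl hadj⟩
  have hcolN : w.2 = false → (σ w).2 = false → U w.1 → U (σ w).1 →
      ((c w.1 : ℕ) != (c (σ w).1 : ℕ)) = true := by
    intro h h' hU hU'
    have := hcol h h' hU hU'
    simp only [bne_iff_ne, ne_eq]
    exact fun e => this (Fin.ext e)
  have hss : σ.symm (σ w) = w := σ.symm_apply_apply w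
  rcases lab_cases σ U c w with ⟨a1, a2⟩ | ⟨a1, a2, a3⟩ | ⟨a1, a2, a3, a4⟩ | ⟨a1, a2, a3, a4, a5⟩ |
    ⟨a1, a2, a3, a4, a5, a6, a7⟩ | ⟨a1, a2, a3, a4, a5, a6⟩ <;>
  rcases lab_cases σ U c (σ w) with ⟨b1, b2⟩ | ⟨b1, b2, b3⟩ | ⟨b1, b2, b3, b4⟩ |
    ⟨b1, b2, b3, b4, b5⟩ | ⟨b1, b2, b3, b4, b5, b6, b7⟩ | ⟨b1, b2, b3, b4, b5, b6⟩
  -- w : G
  · rw [a2, b2]; rfl
  · exact absurd (S.dummy' a1 b1).2.1 b2
  · have := S.stay a1 b1; rw [b3] at this; simp at this
  · rw [a2, b5]; rfl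
  · rw [hss, a1] at b4; simp at b4
  · rw [hss, a1] at b4; simp at b4
  -- w : F
  · exact absurd (S.dummy a1 b1).2.1 a2
  · rw [a3, b3]; rfl
  · rw [a3, b4]; rfl
  · rw [hss, a1] at b4; simp at b4
  · rw [hss] at b6; exact absurd b6 a2
  · rw [a3, b6]; rfl
  -- w : R
  · rw [a4, b2]; rfl
  · rw [a3] at b1; simp at b1
  · rw [a3] at b1; simp at b1
  · rw [a3] at b1; simp at b1
  · rw [a3] at b1; simp at b1
  · rw [a3] at b1; simp at b1
  -- w : L
  · rw [a3] at b1; simp at b1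
  · rw [a5, b3]; rfl
  · exfalso
    have hz := (S.dummy b1 b3).1
    have hz' : Z w.1 := by
      have := S.dummy' (w := σ.symm w) a4 (by rw [Equiv.apply_symm_apply]; exact a1)
      rw [Equiv.apply_symm_apply] at this
      exact this.1
    exact S.hZ _ _ hz' hz (S.real a1 a3)
  · rw [hss, a1] at b4; simp at b4
  · rw [a5, b7]; rfl
  · rw [a5, b6]
    simp [ok2, isG, isL, isR, isF, isI, isU, isZ, colOf]
    exact fun e => hcol a1 a3 a2 b2 (Fin.ext e)
  -- w : I
  · rw [a3] at b1; simp at b1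
  · exact absurd a5 b2
  · rw [a7, b4]; rfl
  · rw [hss, a1] at b4; simp at b4
  · rw [a7, b7]; rfl
  · rw [a7, b6]; rfl
  -- w : C
  · rw [a3] at b1; simp at b1
  · rw [a6, b3]; rfl
  · rw [a6, b4]
    simp [ok2, isG, isL, isR, isF, isI, isU, isZ, colOf]
    exact fun e => hcol a1 a3 a2 b2 (Fin.ext e)
  · rw [hss, a1] at b4; simp at b4
  · rw [a6, b7]; rfl
  · rw [a6, b6]
    simp [ok2, isG, isL, isR, isF, isI, isU, isZ, colOf]
    exact fun e => hcol a1 a3 a2 b2 (Fin.ext e)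

theorem hok3 (S : Setup G σ U Z) {E : V × Bool → Prop} {c : V → Fin 4}
    (hc : ∀ u v, HAdj G σ U E u v → c u ≠ c v) (w : V × Bool) :
    ok3 (lab σ U c w) (lab σ U c (σ w)) (lab σ U c (σ (σ w))) = true := by
  have h1 := hok2 S hc w
  have h2 := hok2 S hc (σ w)
  unfold ok3
  rw [h1, h2]
  simp only [Bool.true_and]
  rcases lab_cases σ U c (σ w) with ⟨b1, b2⟩ | ⟨b1, b2, b3⟩ | ⟨b1, b2, b3, b4⟩ |
    ⟨b1, b2, b3, b4, b5⟩ | ⟨b1, b2, b3, b4, b5, b6, b7⟩ | ⟨b1, b2, b3, b4, b5, b6⟩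
  · rw [b2]; rfl
  · rw [b3]; rfl
  · rw [b4]; rfl
  · rw [b5]; rfl
  · rw [b7]; rfl
  · rw [b6]
    simp only [isC, Bool.not_true, Bool.false_or, Bool.not_eq_true', Bool.and_eq_false_iff]
    by_contra hcon
    push Not at hcon
    have e1 := (isU_lab σ U c w).mp (by simpa using hcon.1)
    have e2 := (isU_lab σ U c (σ (σ w))).mp (by simpa using hcon.2)
    apply b5
    rw [Equiv.symm_apply_apply]
    exact ⟨e2.2, e1.2⟩

theorem exists_iter [Finite V] {σ : Equiv.Perm (V × Bool)} {w b : V × Bool}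
    (h : σ.SameCycle w b) : ∃ j : ℕ, σ^[j] w = b := by
  obtain ⟨j, hj⟩ := h.exists_nat_pow_eq
  exact ⟨j, by rw [Equiv.Perm.coe_pow] at hj; exact hj⟩

theorem hspecial [Finite V] (S : Setup G σ U Z) {E : V × Bool → Prop} {c : V → Fin 4}
    (hc : ∀ u v, HAdj G σ U E u v → c u ≠ c v)
    (E3 : ∀ w, (∀ b, σ.SameCycle w b → b.2 = false) →
      (∃ b, σ.SameCycle w b ∧ (Uw U (σ.symm b) ∧ Uw U b ∧ ¬ Uw U (σ b))) →
      ∃ b, σ.SameCycle w b ∧ (Uw U (σ.symm b) ∧ Uw U b ∧ ¬ Uw U (σ b)) ∧ E b)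
    (E4 : ∀ w, (∀ b, σ.SameCycle w b → b.2 = false) →
      (¬ ∃ b, σ.SameCycle w b ∧ (Uw U (σ.symm b) ∧ Uw U b ∧ ¬ Uw U (σ b))) →
      (∃ b, σ.SameCycle w b ∧ (Uw U (σ.symm (σ.symm b)) ∧ ¬ Uw U (σ.symm b) ∧ Uw U b ∧
        ¬ Uw U (σ b))) →
      ∃ b, σ.SameCycle w b ∧ (Uw U (σ.symm (σ.symm b)) ∧ ¬ Uw U (σ.symm b) ∧ Uw U b ∧
        ¬ Uw U (σ b)) ∧ E b)
    (w : V × Bool)
    (hG : ∀ j : ℕ, isG (lab σ U c (σ^[j] w)) = false)
    (hI : ∀ j : ℕ, isI (lab σ U c (σ^[j] w)) = false) :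
    Special (fun j => lab σ U c (σ^[j] w)) := by
  have hit : ∀ b, σ.SameCycle w b → ∃ j : ℕ, σ^[j] w = b := fun b hb => exists_iter hb
  have hfalse : ∀ b, σ.SameCycle w b → b.2 = false := by
    intro b hb
    obtain ⟨j, rfl⟩ := hit b hb
    by_contra hcon
    have := hG j
    rw [lab_G (by simpa using hcon)] at this
    simp [isG] at this
  have hnoI : ∀ b, σ.SameCycle w b → isI (lab σ U c b) = false := by
    intro b hb
    obtain ⟨j, rfl⟩ := hit b hb
    exact hI j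
  have sc1 : ∀ b, σ.SameCycle w b → σ.SameCycle w (σ b) := fun b hb =>
    hb.trans ((Equiv.Perm.sameCycle_apply_right (f := σ)).mpr (Equiv.Perm.SameCycle.refl σ b))
  have sc2 : ∀ b, σ.SameCycle w b → σ.SameCycle w (σ.symm b) := fun b hb => by
    have h : σ.SameCycle (σ.symm b) (σ (σ.symm b)) :=
      (Equiv.Perm.sameCycle_apply_right (f := σ)).mpr (Equiv.Perm.SameCycle.refl σ _)
    rw [Equiv.apply_symm_apply] at h
    exact hb.trans h.symm
  have sci : ∀ j : ℕ, σ.SameCycle w (σ^[j] w) := by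
    intro j
    induction j with
    | zero => exact Equiv.Perm.SameCycle.refl σ w
    | succ j ih => rw [Function.iterate_succ_apply']; exact sc1 _ ih
  -- letters in this cycle
  have hletF : ∀ b, σ.SameCycle w b → ¬ Uw U b → lab σ U c b = .F := by
    intro b hb hn
    exact lab_F (hfalse b hb) (fun hU => hn ⟨hfalse b hb, hU⟩)
  have hletC : ∀ b, σ.SameCycle w b → Uw U b → lab σ U c b = .C (c b.1) := by
    intro b hb hn
    rcases lab_cases σ U c b with ⟨b1, b2⟩ | ⟨b1, b2, b3⟩ | ⟨b1, b2, b3, b4⟩ |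
      ⟨b1, b2, b3, b4, b5⟩ | ⟨b1, b2, b3, b4, b5, b6, b7⟩ | ⟨b1, b2, b3, b4, b5, b6⟩
    · rw [hfalse b hb] at b1; simp at b1
    · exact absurd hn.2 b2
    · rw [hfalse _ (sc1 b hb)] at b3; simp at b3
    · rw [hfalse _ (sc2 b hb)] at b4; simp at b4
    · have := hnoI b hb
      rw [b7] at this; simp [isI] at this
    · exact b6
  have hCU : ∀ b, σ.SameCycle w b → isC (lab σ U c b) = true → Uw U b := by
    intro b hb h
    by_contra hn
    rw [hletF b hb hn] at h
    simp [isC] at h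
  have hFU : ∀ b, σ.SameCycle w b → lab σ U c b = .F → ¬ Uw U b := by
    intro b hb h hn
    rw [hletC b hb hn] at h
    simp at h
  have hCisC : ∀ b, σ.SameCycle w b → Uw U b → isC (lab σ U c b) = true := by
    intro b hb h
    rw [hletC b hb h]; rfl
  -- the colour inequality
  have hne : ∀ b b', σ.SameCycle w b → σ.SameCycle w b' → Uw U b → Uw U b' →
      c b.1 ≠ c b'.1 → lab σ U c b ≠ lab σ U c b' := by
    intro b b' hb hb' hU hU' hcc
    rw [hletC b hb hU, hletC b' hb' hU']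
    intro e
    exact hcc (Letter.C.inj e)
  have eta : ∀ b : V × Bool, b.2 = false → (b.1, false) = b := by
    intro b hb; ext <;> simp [hb]
  -- next element two steps ahead
  have hnext : ∀ b, σ.SameCycle w b → E b → Uw U b → ¬ Uw U (σ b) →
      lab σ U c (σ (σ b)) ≠ lab σ U c b := by
    intro b hb hE hU hnU
    have hb2 := sc1 _ (sc1 b hb)
    by_cases hU2 : Uw U (σ (σ b))
    · refine (hne _ _ hb hb2 hU hU2 ?_).symm
      apply hc
      refine ⟨?_, hU.2, hU2.2, Or.inr (Or.inl ⟨?_, Or.inl ⟨?_, ?_⟩⟩)⟩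
      · intro e
        apply S.h2 b
        ext
        · exact e.symm
        · rw [hfalse _ hb2, hfalse _ hb]
      · rw [eta b (hfalse b hb)]; exact hE
      · rw [eta b (hfalse b hb), eta _ (hfalse _ hb2)]
      · rw [eta b (hfalse b hb)]; exact hnU
    · rw [hletF _ hb2 hU2, hletC _ hb hU]
      simp
  have hprev : ∀ b, σ.SameCycle w b → E b → Uw U b → ¬ Uw U (σ.symm b) →
      Uw U (σ.symm (σ.symm b)) →
      lab σ U c (σ.symm (σ.symm b)) ≠ lab σ U c b := by
    intro b hb hE hU hnU hU2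
    have hb2 := sc2 _ (sc2 b hb)
    refine (hne _ _ hb hb2 hU hU2 ?_).symm
    apply hc
    refine ⟨?_, hU.2, hU2.2, Or.inr (Or.inl ⟨?_, Or.inr ⟨?_, ?_⟩⟩)⟩
    · intro e
      have h2 := S.h2 (σ.symm (σ.symm b))
      rw [Equiv.apply_symm_apply, Equiv.apply_symm_apply] at h2
      apply h2
      ext
      · exact e
      · rw [hfalse _ hb2, hfalse _ hb]
    · rw [eta b (hfalse b hb)]; exact hE
    · rw [eta b (hfalse b hb), eta _ (hfalse _ hb2)]
    · rw [eta b (hfalse b hb)]; exact hnU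
  -- the pattern around a special point
  have hseq : ∀ (b : V × Bool) (m : ℕ), σ^[m] w = σ.symm (σ.symm b) →
      σ^[m + 1] w = σ.symm b ∧ σ^[m + 2] w = b ∧ σ^[m + 3] w = σ b ∧ σ^[m + 4] w = σ (σ b) := by
    intro b m hm
    have e1 : σ^[m + 1] w = σ.symm b := by
      rw [Function.iterate_succ_apply', hm, Equiv.apply_symm_apply]
    have e2 : σ^[m + 2] w = b := by
      rw [Function.iterate_succ_apply', e1, Equiv.apply_symm_apply]
    have e3 : σ^[m + 3] w = σ b := by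
      rw [Function.iterate_succ_apply', e2]
    have e4 : σ^[m + 4] w = σ (σ b) := by
      rw [Function.iterate_succ_apply', e3]
    exact ⟨e1, e2, e3, e4⟩
  constructor
  · intro i hi0 hi1 hi2 hi3
    simp only at hi0 hi1 hi2 hi3
    have hb := sci (i + 2)
    have hs1 : σ.symm (σ^[i + 2] w) = σ^[i + 1] w := by
      rw [Function.iterate_succ_apply' _ (i + 1), Equiv.symm_apply_apply]
    have hs2 : σ (σ^[i + 2] w) = σ^[i + 3] w := by
      rw [Function.iterate_succ_apply' _ (i + 2)]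
    obtain ⟨b, hb1, ⟨p1, p2, p3⟩, hE⟩ := E3 w hfalse ⟨σ^[i + 2] w, hb, by
      rw [hs1, hs2]
      exact ⟨hCU _ (sci _) hi1, hCU _ hb hi2, hFU _ (sci _) hi3⟩⟩
    have hbm := sc2 _ (sc2 _ hb1)
    obtain ⟨m, hm⟩ := hit _ hbm
    obtain ⟨e1, e2, e3, e4⟩ := hseq b m hm
    refine ⟨m, ?_, ?_, ?_, ?_, ?_⟩
    · simp only
      rw [hm]
      apply hletF _ hbm
      intro hU
      have h3 := hnoI _ (sc2 _ hb1)
      rw [lab_I (hfalse _ (sc2 _ hb1)) p1.2
        (by rw [Equiv.apply_symm_apply]; exact hfalse _ hb1) (hfalse _ hbm)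
        (by rw [Equiv.apply_symm_apply]; exact p2.2) hU.2] at h3
      simp [isI] at h3
    · simp only
      rw [e1]; exact hCisC _ (sc2 _ hb1) p1
    · simp only
      rw [e2]; exact hCisC _ hb1 p2
    · simp only
      rw [e3]; exact hletF _ (sc1 _ hb1) p3
    · simp only
      rw [e4, e2]; exact hnext b hb1 hE p2 p3
  · intro hnp i hi0 hi1 hi2 hi3
    simp only at hi0 hi1 hi2 hi3 hnp
    have hb := sci (i + 2)
    have hs1 : σ.symm (σ^[i + 2] w) = σ^[i + 1] w := by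
      rw [Function.iterate_succ_apply' _ (i + 1), Equiv.symm_apply_apply]
    have hs0 : σ.symm (σ.symm (σ^[i + 2] w)) = σ^[i] w := by
      rw [hs1, Function.iterate_succ_apply' _ i, Equiv.symm_apply_apply]
    have hs2 : σ (σ^[i + 2] w) = σ^[i + 3] w := by
      rw [Function.iterate_succ_apply' _ (i + 2)]
    obtain ⟨b, hb1, ⟨p0, p1, p2, p3⟩, hE⟩ := E4 w hfalse (by
      rintro ⟨b, hb1, p1, p2, -⟩
      obtain ⟨m, hm⟩ := hit _ (sc2 _ hb1)
      apply hnp m
      have e1 : σ^[m + 1] w = b := by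
        rw [Function.iterate_succ_apply', hm, Equiv.apply_symm_apply]
      rw [hm, e1]
      exact ⟨hCisC _ (sc2 _ hb1) p1, hCisC _ hb1 p2⟩) ⟨σ^[i + 2] w, hb, by
      rw [hs0, hs1, hs2]
      exact ⟨hCU _ (sci _) hi0, hFU _ (sci _) hi1, hCU _ hb hi2, hFU _ (sci _) hi3⟩⟩
    have hbm := sc2 _ (sc2 _ hb1)
    obtain ⟨m, hm⟩ := hit _ hbm
    obtain ⟨e1, e2, e3, e4⟩ := hseq b m hm
    refine ⟨m, ?_, ?_, ?_, ?_, ?_, ?_⟩
    · simp only
      rw [hm]; exact hCisC _ hbm p0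
    · simp only
      rw [e1]; exact hletF _ (sc2 _ hb1) p1
    · simp only
      rw [e2]; exact hCisC _ hb1 p2
    · simp only
      rw [e3]; exact hletF _ (sc1 _ hb1) p3
    · simp only
      rw [hm, e2]; exact hprev b hb1 hE p2 p1 p0
    · simp only
      rw [e4, e2]; exact hnext b hb1 hE p2 p3

/-- destructing transitions -/
theorem tr_F {s t : St} (h : tr s .F t = true) : ∃ f g c' f2 g2, s = some (f, g, c') ∧
    t = some (f2, g2, 4) ∧ okmid f g c' f2 g2 4 = true := by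
  rcases s with _ | ⟨f, g, c'⟩ <;> rcases t with _ | ⟨f2, g2, c2⟩ <;> simp [tr] at h
  obtain ⟨h1, rfl⟩ := h
  exact ⟨f, g, c', f2, g2, rfl, rfl, h1⟩

theorem tr_I {s t : St} (h : tr s .I t = true) : ∃ f g c' f2 g2 c2, s = some (f, g, c') ∧
    t = some (f2, g2, c2) ∧ okmid f g c' f2 g2 c2 = true ∧ c2 ≠ 4 := by
  rcases s with _ | ⟨f, g, c'⟩ <;> rcases t with _ | ⟨f2, g2, c2⟩ <;> simp [tr] at h
  exact ⟨f, g, c', f2, g2, c2, rfl, rfl, h.1, h.2⟩

theorem tr_C {s t : St} {a : Fin 4} (h : tr s (.C a) t = true) : ∃ f g c' f2 g2,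
    s = some (f, g, c') ∧
    t = some (f2, g2, (a : ℕ)) ∧ okmid f g c' f2 g2 a = true := by
  rcases s with _ | ⟨f, g, c'⟩ <;> rcases t with _ | ⟨f2, g2, c2⟩ <;> simp [tr] at h
  obtain ⟨h1, rfl⟩ := h
  exact ⟨f, g, c', f2, g2, rfl, rfl, h1⟩

theorem tr_L {s t : St} {a : Fin 4} (h : tr s (.L a) t = true) : ∃ f g,
    s = none ∧ t = some (f, g, (a : ℕ)) ∧ okst f g a = true ∧ f ≠ 4 := by
  rcases s with _ | ⟨f, g, c'⟩ <;> rcases t with _ | ⟨f2, g2, c2⟩ <;> simp [tr] at h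
  obtain ⟨⟨h1, rfl⟩, h2⟩ := h
  exact ⟨f2, g2, rfl, rfl, h1, h2⟩

theorem tr_R {s t : St} {a : Fin 4} (h : tr s (.R a) t = true) : ∃ f g c',
    s = some (f, g, c') ∧ t = none ∧ okst f g c' = true ∧ c' ≠ a ∧ f ≠ a ∧ g ≠ a ∧ g ≠ 4 := by
  rcases s with _ | ⟨f, g, c'⟩ <;> rcases t with _ | ⟨f2, g2, c2⟩ <;> simp [tr] at h
  exact ⟨f, g, c', rfl, rfl, h.1.1.1.1, h.1.1.1.2, h.1.1.2, h.1.2, h.2⟩

theorem okst_spec {f g c' : ℕ} (h : okst f g c' = true) :
    f ≤ 4 ∧ g ≤ 4 ∧ c' ≤ 4 ∧ f ≠ g ∧ (c' = 4 ∨ (f ≠ c' ∧ g ≠ c')) ∧ (c' ≠ 4 ∨ (f ≠ 4 ∧ g ≠ 4)) := by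
  unfold okst at h
  simp at h
  tauto

theorem okmid_spec {f g c' f2 g2 c2 : ℕ} (h : okmid f g c' f2 g2 c2 = true) :
    okst f g c' = true ∧ okst f2 g2 c2 = true ∧ f ≠ f2 ∧ g ≠ f2 ∧ g ≠ g2 ∧
      (c' = 4 ∨ c2 = 4 ∨ c' ≠ c2) ∧
      (c2 = 4 → f ≠ 4 ∧ g ≠ 4 ∧ f2 ≠ 4 ∧ g2 ≠ 4) ∧
      (c2 ≠ 4 → f ≠ c2 ∧ g ≠ c2 ∧ f2 ≠ c2 ∧ g2 ≠ c2) := by
  unfold okmid at h
  by_cases hc : c2 = 4
  · subst hc
    simp at h
    tauto
  · have : (c2 == 4) = false := by simpa using hc
    rw [this] at h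
    simp at h
    tauto

theorem class_col [Finite V] (S : Setup G σ U Z)
    (hcard : ∀ v, U v → ¬ Z v → Set.ncard {u | G.Adj v u ∧ U u} ≤ 2) :
    ∃ (χ : V → ℕ) (f g : V × Bool → ℕ), (∀ v, U v → χ v < 4) ∧
      (∀ u v, U u → U v → G.Adj u v → χ u ≠ χ v) ∧
      (∀ w, w.2 = false → (σ w).2 = false →
        (f w ≤ 4 ∧ g w ≤ 4 ∧ f w ≠ g w) ∧
        (U w.1 → f w ≠ χ w.1 ∧ g w ≠ χ w.1) ∧
        (U (σ w).1 → f w ≠ χ (σ w).1 ∧ g w ≠ χ (σ w).1) ∧
        (f w = 4 → U w.1 ∧ ¬ Z w.1 ∧ U (σ w).1) ∧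
        (g w = 4 → U (σ w).1 ∧ ¬ Z (σ w).1 ∧ U w.1) ∧
        ((σ (σ w)).2 = false → f w ≠ f (σ w) ∧ g w ≠ f (σ w) ∧ g w ≠ g (σ w))) := by
  classical
  obtain ⟨E, E1, E2, E3, E4⟩ := exists_specials σ (fun w => w.2 = false)
    (fun b => Uw U (σ.symm b) ∧ Uw U b ∧ ¬ Uw U (σ b))
    (fun b => Uw U (σ.symm (σ.symm b)) ∧ ¬ Uw U (σ.symm b) ∧ Uw U b ∧ ¬ Uw U (σ b))
  obtain ⟨c, hc⟩ := exists_c S hcard E E1 E2
  obtain ⟨x, hx⟩ := exists_states σ (lab σ U c) S.h1 S.h2 (hok3 S hc)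
    (fun w => hspecial S hc E3 E4 w)
  have hx' : ∀ w, tr (x (σ.symm w)) (lab σ U c w) (x w) = true := by
    intro w
    have := hx (σ.symm w)
    rwa [Equiv.apply_symm_apply] at this
  let χ : V → ℕ := fun v => match x (v, false) with
    | some (_, _, c') => c'
    | none => c v
  let f : V × Bool → ℕ := fun w => match x w with
    | some (f, _, _) => f
    | none => 0
  let g : V × Bool → ℕ := fun w => match x w with
    | some (_, g, _) => g
    | none => 0
  have eta : ∀ b : V × Bool, b.2 = false → (b.1, false) = b := by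
    intro b hb; ext <;> simp [hb]
  have hχ : ∀ w : V × Bool, w.2 = false → ∀ a b c', x w = some (a, b, c') → χ w.1 = c' := by
    intro w hw a b c' h
    simp only [χ, eta w hw, h]
  have hχn : ∀ w : V × Bool, w.2 = false → x w = none → χ w.1 = c w.1 := by
    intro w hw h
    simp only [χ, eta w hw, h]
  have hf : ∀ w a b c', x w = some (a, b, c') → f w = a := by
    intro w a b c' h; simp only [f, h]
  have hg : ∀ w a b c', x w = some (a, b, c') → g w = b := by
    intro w a b c' h; simp only [g, h]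
  -- the colour of a vertex of U
  have hχC : ∀ w : V × Bool, w.2 = false → U w.1 → lab σ U c w ≠ .I → χ w.1 = c w.1 := by
    intro w hw hU hI
    have ht := hx' w
    rcases lab_cases σ U c w with ⟨b1, b2⟩ | ⟨b1, b2, b3⟩ | ⟨b1, b2, b3, b4⟩ |
      ⟨b1, b2, b3, b4, b5⟩ | ⟨b1, b2, b3, b4, b5, b6, b7⟩ | ⟨b1, b2, b3, b4, b5, b6⟩
    · rw [hw] at b1; simp at b1
    · exact absurd hU b2
    · rw [b4] at ht
      obtain ⟨_, _, _, -, h2, -⟩ := tr_R ht
      exact hχn w hw h2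
    · rw [b5] at ht
      obtain ⟨_, _, -, h2, -⟩ := tr_L ht
      exact hχ w hw _ _ _ h2
    · exact absurd b7 hI
    · rw [b6] at ht
      obtain ⟨_, _, _, _, _, -, h2, -⟩ := tr_C ht
      exact hχ w hw _ _ _ h2
  have hχlt : ∀ w : V × Bool, w.2 = false → U w.1 → χ w.1 < 4 := by
    intro w hw hU
    by_cases hI : lab σ U c w = .I
    · have ht := hx' w
      rw [hI] at ht
      obtain ⟨_, _, _, _, _, c2, -, h2, h3, h4⟩ := tr_I ht
      rw [hχ w hw _ _ _ h2]
      have := (okst_spec (okmid_spec h3).2.1).2.2.1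
      omega
    · rw [hχC w hw hU hI]; exact (c w.1).2
  -- along a real edge, before a letter of U
  have hedge : ∀ w : V × Bool, w.2 = false → (σ w).2 = false → ∃ a b c', x w = some (a, b, c') ∧
      okst a b c' = true ∧ (U w.1 → c' = χ w.1) ∧ (¬ U w.1 → c' = 4) := by
    intro w hw hw'
    have ht := hx' w
    rcases lab_cases σ U c w with ⟨b1, b2⟩ | ⟨b1, b2, b3⟩ | ⟨b1, b2, b3, b4⟩ |
      ⟨b1, b2, b3, b4, b5⟩ | ⟨b1, b2, b3, b4, b5, b6, b7⟩ | ⟨b1, b2, b3, b4, b5, b6⟩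
    · rw [hw] at b1; simp at b1
    · rw [b3] at ht
      obtain ⟨_, _, _, f2, g2, -, h2, h3⟩ := tr_F ht
      exact ⟨f2, g2, 4, h2, (okmid_spec h3).2.1, fun h => absurd h b2, fun _ => rfl⟩
    · rw [hw'] at b3; simp at b3
    · rw [b5] at ht
      obtain ⟨f2, g2, -, h2, h3, -⟩ := tr_L ht
      exact ⟨f2, g2, _, h2, h3, fun _ => (hχ w hw _ _ _ h2).symm, fun h => absurd b2 h⟩
    · rw [b7] at ht
      obtain ⟨_, _, _, f2, g2, c2, -, h2, h3, -⟩ := tr_I ht
      exact ⟨f2, g2, c2, h2, (okmid_spec h3).2.1, fun _ => (hχ w hw _ _ _ h2).symm,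
        fun h => absurd b2 h⟩
    · rw [b6] at ht
      obtain ⟨_, _, _, f2, g2, -, h2, h3⟩ := tr_C ht
      exact ⟨f2, g2, _, h2, (okmid_spec h3).2.1, fun _ => (hχ w hw _ _ _ h2).symm,
        fun h => absurd b2 h⟩
  -- the condition at the head of a real edge
  have hhead : ∀ w : V × Bool, w.2 = false → (σ w).2 = false → ∀ a b c',
      x w = some (a, b, c') → U (σ w).1 →
      a ≠ χ (σ w).1 ∧ b ≠ χ (σ w).1 ∧ (U w.1 → χ w.1 ≠ χ (σ w).1) := by
    intro w hw hw' a b c' hxw hU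
    have ht := hx w
    have hc' : U w.1 → c' = χ w.1 := fun _ => (hχ w hw _ _ _ hxw).symm
    rcases lab_cases σ U c (σ w) with ⟨b1, b2⟩ | ⟨b1, b2, b3⟩ | ⟨b1, b2, b3, b4⟩ |
      ⟨b1, b2, b3, b4, b5⟩ | ⟨b1, b2, b3, b4, b5, b6, b7⟩ | ⟨b1, b2, b3, b4, b5, b6⟩
    · rw [hw'] at b1; simp at b1
    · exact absurd hU b2
    · rw [b4, hxw] at ht
      obtain ⟨a', b', c'', h1, h2, h3, h4, h5, h6, h7⟩ := tr_R ht
      simp only [Option.some.injEq, Prod.mk.injEq] at h1
      obtain ⟨rfl, rfl, rfl⟩ := h1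
      rw [hχn _ hw' h2]
      exact ⟨h5, h6, fun hh => by rw [← hc' hh]; exact h4⟩
    · rw [Equiv.symm_apply_apply, hw] at b4; simp at b4
    · rw [b7, hxw] at ht
      obtain ⟨a', b', c'', f2, g2, c2, h1, h2, h3, h4⟩ := tr_I ht
      simp only [Option.some.injEq, Prod.mk.injEq] at h1
      obtain ⟨rfl, rfl, rfl⟩ := h1
      obtain ⟨m1, m2, m3, m4, m5, m6, m7, m8⟩ := okmid_spec h3
      obtain ⟨n1, n2, n3, n4⟩ := m8 h4
      rw [hχ _ hw' _ _ _ h2]
      refine ⟨n1, n2, fun hh => ?_⟩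
      have hlt := hχlt w hw hh
      rw [← hc' hh] at hlt ⊢
      rcases m6 with m6 | m6 | m6
      · omega
      · exact absurd m6 h4
      · exact m6
    · rw [b6, hxw] at ht
      obtain ⟨a', b', c'', f2, g2, h1, h2, h3⟩ := tr_C ht
      simp only [Option.some.injEq, Prod.mk.injEq] at h1
      obtain ⟨rfl, rfl, rfl⟩ := h1
      obtain ⟨m1, m2, m3, m4, m5, m6, m7, m8⟩ := okmid_spec h3
      have h4 : ((c (σ w).1 : Fin 4) : ℕ) ≠ 4 := by have := (c (σ w).1).2; omega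
      obtain ⟨n1, n2, n3, n4⟩ := m8 h4
      rw [hχ _ hw' _ _ _ h2]
      refine ⟨n1, n2, fun hh => ?_⟩
      have hlt := hχlt w hw hh
      rw [← hc' hh] at hlt ⊢
      rcases m6 with m6 | m6 | m6
      · omega
      · exact absurd m6 h4
      · exact m6
  refine ⟨χ, f, g, fun v hv => hχlt (v, false) rfl hv, ?_, ?_⟩
  · -- properness
    -- an interior vertex
    have hint : ∀ u v, U u → U v → G.Adj u v → lab σ U c (v, false) = .I → χ u ≠ χ v := by
      intro u v hUu hUv huv hI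
      rcases lab_cases σ U c (v, false) with ⟨b1, b2⟩ | ⟨b1, b2, b3⟩ | ⟨b1, b2, b3, b4⟩ |
        ⟨b1, b2, b3, b4, b5⟩ | ⟨b1, b2, b3, b4, b5, b6, b7⟩ | ⟨b1, b2, b3, b4, b5, b6⟩
      · rw [b2] at hI; simp at hI
      · rw [b3] at hI; simp at hI
      · rw [b4] at hI; simp at hI
      · rw [b5] at hI; simp at hI
      swap
      · rw [b6] at hI; simp at hI
      have hZv : ¬ Z v := by
        intro hZv
        rcases S.hZU v hUv hZv with h | h
        · rw [b3] at h; simp at h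
        · rw [b4] at h; simp at h
      have hle := hcard v hUv hZv
      have r1 : G.Adj v (σ (v, false)).1 := S.real (w := (v, false)) rfl b3
      have r2 : G.Adj v (σ.symm (v, false)).1 := by
        have := S.real (w := σ.symm (v, false)) b4 (by rw [Equiv.apply_symm_apply])
        rw [Equiv.apply_symm_apply] at this
        exact this.symm
      have hne : (σ (v, false)).1 ≠ (σ.symm (v, false)).1 := by
        intro e
        apply S.h2 (σ.symm (v, false))
        rw [Equiv.apply_symm_apply]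
        ext
        · exact e
        · rw [b3, b4]
      have hu : u = (σ (v, false)).1 ∨ u = (σ.symm (v, false)).1 := by
        by_contra hcon
        push Not at hcon
        have hsub : ({u, (σ (v, false)).1, (σ.symm (v, false)).1} : Set V) ⊆
            {u | G.Adj v u ∧ U u} := by
          rintro y (rfl | rfl | rfl)
          · exact ⟨huv.symm, hUu⟩
          · exact ⟨r1, b5⟩
          · exact ⟨r2, b6⟩
        have h3 : ({u, (σ (v, false)).1, (σ.symm (v, false)).1} : Set V).ncard = 3 :=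
          Set.ncard_eq_three.mpr ⟨_, _, _, hcon.1, hcon.2, hne, rfl⟩
        have := Set.ncard_le_ncard hsub (Set.toFinite _)
        omega
      rcases hu with rfl | rfl
      · obtain ⟨a, b, c', h1, h2, h3, h4⟩ := hedge (v, false) rfl b3
        exact ((hhead (v, false) rfl b3 a b c' h1 hUu).2.2 hUv).symm
      · have e0 : σ (σ.symm (v, false)) = (v, false) := Equiv.apply_symm_apply _ _
        obtain ⟨a, b, c', h1, h2, h3, h4⟩ := hedge (σ.symm (v, false)) b4 (by rw [e0])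
        have := (hhead (σ.symm (v, false)) b4 (by rw [e0]) a b c' h1 (by rw [e0]; exact hUv)).2.2 hUu
        rw [e0] at this
        exact this
    intro u v hUu hUv huv
    by_cases hIv : lab σ U c (v, false) = .I
    · exact hint u v hUu hUv huv hIv
    by_cases hIu : lab σ U c (u, false) = .I
    · exact (hint v u hUv hUu huv.symm hIu).symm
    rw [hχC (v, false) rfl hUv hIv, hχC (u, false) rfl hUu hIu]
    intro e
    exact hc u v ⟨huv.ne, hUu, hUv, Or.inl huv⟩ (Fin.ext e)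
  · intro w hw hw'
    obtain ⟨a, b, c', h1, h2, h3, h4⟩ := hedge w hw hw'
    obtain ⟨k1, k2, k3, k4, k5, k6⟩ := okst_spec h2
    rw [hf w _ _ _ h1, hg w _ _ _ h1]
    have ht := hx w
    have ht' := hx' w
    refine ⟨⟨k1, k2, k4⟩, ?_, ?_, ?_, ?_, ?_⟩
    · intro hU
      have hlt := hχlt w hw hU
      rw [← h3 hU] at hlt ⊢
      rcases k5 with k5 | k5
      · omega
      · exact k5
    · intro hU
      have := hhead w hw hw' a b c' h1 hU
      exact ⟨this.1, this.2.1⟩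
    · intro ha
      have hUw : U w.1 := by
        by_contra hn
        have := h4 hn
        rcases k6 with k6 | k6
        · exact k6 this
        · exact k6.1 ha
      refine ⟨hUw, ?_, ?_⟩
      · intro hZw
        rcases S.hZU w.1 hUw hZw with h | h
        · rw [eta w hw, hw'] at h; simp at h
        · rw [eta w hw] at h
          rw [lab_L hw hUw hw' h] at ht'
          obtain ⟨_, _, -, h5, -, h6⟩ := tr_L ht'
          rw [h1] at h5
          simp only [Option.some.injEq, Prod.mk.injEq] at h5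
          exact h6 (h5.1 ▸ ha)
      · by_contra hn
        rw [lab_F hw' hn, h1] at ht
        obtain ⟨_, _, _, _, _, h5, -, h6⟩ := tr_F ht
        simp only [Option.some.injEq, Prod.mk.injEq] at h5
        have := ((okmid_spec h6).2.2.2.2.2.2.1 rfl).1
        exact this (h5.1 ▸ ha)
    · intro hb
      have hUw : U w.1 := by
        by_contra hn
        have := h4 hn
        rcases k6 with k6 | k6
        · exact k6 this
        · exact k6.2 hb
      have hUs : U (σ w).1 := by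
        by_contra hn
        rw [lab_F hw' hn, h1] at ht
        obtain ⟨_, _, _, _, _, h5, -, h6⟩ := tr_F ht
        simp only [Option.some.injEq, Prod.mk.injEq] at h5
        have := ((okmid_spec h6).2.2.2.2.2.2.1 rfl).2.1
        exact this (h5.2.1 ▸ hb)
      refine ⟨hUs, ?_, hUw⟩
      intro hZw
      rcases S.hZU (σ w).1 hUs hZw with h | h
      · rw [eta _ hw'] at h
        rw [lab_R hw' hUs h, h1] at ht
        obtain ⟨_, _, _, h5, -, -, -, -, -, h6⟩ := tr_R ht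
        simp only [Option.some.injEq, Prod.mk.injEq] at h5
        exact h6 (h5.2.1 ▸ hb)
      · rw [eta _ hw', Equiv.symm_apply_apply, hw] at h; simp at h
    · intro hw''
      rcases lab_cases σ U c (σ w) with ⟨b1, b2⟩ | ⟨b1, b2, b3⟩ | ⟨b1, b2, b3, b4⟩ |
        ⟨b1, b2, b3, b4, b5⟩ | ⟨b1, b2, b3, b4, b5, b6, b7⟩ | ⟨b1, b2, b3, b4, b5, b6⟩
      · rw [hw'] at b1; simp at b1
      · rw [b3, h1] at ht
        obtain ⟨a', b', c'', f2, g2, h5, h6, h7⟩ := tr_F ht
        simp only [Option.some.injEq, Prod.mk.injEq] at h5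
        obtain ⟨rfl, rfl, rfl⟩ := h5
        rw [hf _ _ _ _ h6, hg _ _ _ _ h6]
        obtain ⟨m1, m2, m3, m4, m5, m6, m7, m8⟩ := okmid_spec h7
        exact ⟨m3, m4, m5⟩
      · rw [hw''] at b3; simp at b3
      · rw [Equiv.symm_apply_apply, hw] at b4; simp at b4
      · rw [b7, h1] at ht
        obtain ⟨a', b', c'', f2, g2, c2, h5, h6, h7, -⟩ := tr_I ht
        simp only [Option.some.injEq, Prod.mk.injEq] at h5
        obtain ⟨rfl, rfl, rfl⟩ := h5
        rw [hf _ _ _ _ h6, hg _ _ _ _ h6]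
        obtain ⟨m1, m2, m3, m4, m5, m6, m7, m8⟩ := okmid_spec h7
        exact ⟨m3, m4, m5⟩
      · rw [b6, h1] at ht
        obtain ⟨a', b', c'', f2, g2, h5, h6, h7⟩ := tr_C ht
        simp only [Option.some.injEq, Prod.mk.injEq] at h5
        obtain ⟨rfl, rfl, rfl⟩ := h5
        rw [hf _ _ _ _ h6, hg _ _ _ _ h6]
        obtain ⟨m1, m2, m3, m4, m5, m6, m7, m8⟩ := okmid_spec h7
        exact ⟨m3, m4, m5⟩

end main

end TT
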