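import Pool.Agent.Helper30.TT.ClassCol
import Pool.Agent.Helper40.TwoFactorization

namespace TT

open Classical in
/-- the doubled graph -/
def dbl {V : Type*} (H : SimpleGraph V) (Z : Set V) : SimpleGraph (V × Bool) where
  Adj a b := (a.2 = b.2 ∧ H.Adj a.1 b.1) ∨ (a.1 = b.1 ∧ a.1 ∈ Z ∧ a.2 ≠ b.2)
  symm := ⟨by
    rintro a b (⟨h1, h2⟩ | ⟨h1, h2, h3⟩)
    · exact Or.inl ⟨h1.symm, h2.symm⟩
    · exact Or.inr ⟨h1.symm, h1 ▸ h2, h3.symm⟩⟩
  loopless := ⟨by
    rintro a (⟨h1, h2⟩ | ⟨h1, h2, h3⟩)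
    · exact H.loopless.irrefl _ h2
    · exact h3 rfl⟩

open Classical in
theorem dbl_degree {V : Type*} [Fintype V] (H : SimpleGraph V) (Z : Set V) (k : ℕ)
    (hdegZ : ∀ v ∈ Z, (H.neighborSet v).ncard + 1 = 2 * k)
    (hdeg : ∀ v ∉ Z, (H.neighborSet v).ncard = 2 * k) (w : V × Bool) :
    (dbl H Z).degree w = 2 * k := by
  obtain ⟨v, s⟩ := w
  have e0 : (H.neighborFinset v).card = (H.neighborSet v).ncard := by
    rw [Set.ncard_eq_toFinset_card']
    rfl
  by_cases hv : v ∈ Z
  · have e : (dbl H Z).neighborFinset (v, s) =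
        insert (v, !s) ((H.neighborFinset v).image (fun u => (u, s))) := by
      ext ⟨u, t⟩
      rw [SimpleGraph.mem_neighborFinset, Finset.mem_insert, Finset.mem_image]
      simp only [dbl, Prod.mk.injEq, SimpleGraph.mem_neighborFinset]
      constructor
      · rintro (⟨rfl, h⟩ | ⟨rfl, -, h⟩)
        · exact Or.inr ⟨u, h, rfl, rfl⟩
        · left
          refine ⟨rfl, ?_⟩
          cases s <;> cases t <;> simp_all
      · rintro (⟨rfl, rfl⟩ | ⟨u', h, rfl, rfl⟩)
        · right
          exact ⟨rfl, hv, by cases s <;> simp⟩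
        · left; exact ⟨rfl, h⟩
    rw [SimpleGraph.degree, e, Finset.card_insert_of_notMem, Finset.card_image_of_injective,
      e0, hdegZ v hv]
    · intro a b h; exact (Prod.mk.inj h).1
    · rw [Finset.mem_image]
      rintro ⟨u, -, h⟩
      have := (Prod.mk.inj h).2
      cases s <;> simp at this
  · have e : (dbl H Z).neighborFinset (v, s) =
        ((H.neighborFinset v).image (fun u => (u, s))) := by
      ext ⟨u, t⟩
      rw [SimpleGraph.mem_neighborFinset, Finset.mem_image]
      simp only [dbl, Prod.mk.injEq, SimpleGraph.mem_neighborFinset]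
      constructor
      · rintro (⟨rfl, h⟩ | ⟨rfl, h, -⟩)
        · exact ⟨u, h, rfl, rfl⟩
        · exact absurd h hv
      · rintro ⟨u', h, rfl, rfl⟩
        left; exact ⟨rfl, h⟩
    rw [SimpleGraph.degree, e, Finset.card_image_of_injective, e0, hdeg v hv]
    intro a b h; exact (Prod.mk.inj h).1

/-- colours of one class -/
def toC {k : ℕ} (i : Fin k) (n : ℕ) : Option (Fin k × Fin 4) :=
  if h : n < 4 then some (i, ⟨n, h⟩) else none

theorem toC_ne {k : ℕ} {i : Fin k} {n m : ℕ} (hn : n ≤ 4) (hm : m ≤ 4) (h : n ≠ m) :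
    toC i n ≠ toC i m := by
  unfold toC
  by_cases h1 : n < 4 <;> by_cases h2 : m < 4
  · rw [dif_pos h1, dif_pos h2]
    intro e
    simp only [Option.some.injEq, Prod.mk.injEq, Fin.mk.injEq, true_and] at e
    exact h e
  · rw [dif_pos h1, dif_neg h2]; simp
  · rw [dif_neg h1, dif_pos h2]; simp
  · omega

theorem toC_ne' {k : ℕ} {i j : Fin k} {n m : ℕ} (hij : i ≠ j) (h : ¬ (toC i n = none ∧
    toC j m = none)) : toC i n ≠ toC j m := by
  intro e
  unfold toC at e h
  by_cases h1 : n < 4 <;> by_cases h2 : m < 4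
  · rw [dif_pos h1, dif_pos h2] at e
    simp only [Option.some.injEq, Prod.mk.injEq] at e
    exact hij e.1
  · rw [dif_pos h1, dif_neg h2] at e; simp at e
  · rw [dif_neg h1, dif_pos h2] at e; simp at e
  · rw [dif_neg h1, dif_neg h2] at h; exact h ⟨rfl, rfl⟩

theorem toC_none {k : ℕ} {i : Fin k} {n : ℕ} (hn : n ≤ 4) (h : toC i n = none) : n = 4 := by
  unfold toC at h
  by_contra hc
  rw [dif_pos (by omega)] at h
  simp at h

theorem toC_some {k : ℕ} {i : Fin k} {n m : ℕ} (hm : m < 4) (h : n ≠ m) :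
    some (i, (⟨m, hm⟩ : Fin 4)) ≠ toC i n := by
  unfold toC
  by_cases h1 : n < 4
  · rw [dif_pos h1]
    intro e
    simp only [Option.some.injEq, Prod.mk.injEq, Fin.mk.injEq, true_and] at e
    exact h e.symm
  · rw [dif_neg h1]; simp

theorem toC_some' {k : ℕ} {i j : Fin k} {n : ℕ} {a : Fin 4} (h : j ≠ i) :
    some (j, a) ≠ toC i n := by
  unfold toC
  by_cases h1 : n < 4
  · rw [dif_pos h1]
    intro e
    simp only [Option.some.injEq, Prod.mk.injEq] at e
    exact h e.1
  · rw [dif_neg h1]; simp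

theorem core {V : Type*} [Fintype V] (G H : SimpleGraph V) (k : ℕ) (hk : 0 < k) (hHG : H ≤ G)
    (Z R : Set V) (hZR : Z ⊆ R) (hZ : ∀ u ∈ Z, ∀ v ∈ Z, ¬ G.Adj u v)
    (hdegZ : ∀ v ∈ Z, (H.neighborSet v).ncard + 1 = 2 * k)
    (hdeg : ∀ v ∉ Z, (H.neighborSet v).ncard = 2 * k)
    (hR : ∀ v ∈ R, v ∉ Z → Set.ncard {u | G.Adj v u ∧ u ∈ R} ≤ 2 * k) :
    ∃ (φ : V → Fin k × Fin 4) (α : V → V → Option (Fin k × Fin 4)),
      (∀ u ∈ R, ∀ v ∈ R, G.Adj u v → φ u ≠ φ v) ∧
      (∀ u v, H.Adj u v → u ∈ R → some (φ u) ≠ α u v ∧ some (φ u) ≠ α v u) ∧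
      (∀ u v w, H.Adj u v → H.Adj u w → v ≠ w → α u v ≠ α u w) ∧
      (∀ u v w, H.Adj u v → H.Adj v w → α u v ≠ α v w) ∧
      (∀ u v, H.Adj u v → α u v = none → u ∈ R ∧ u ∉ Z ∧ v ∈ R) := by
  classical
  obtain ⟨σ, hσ1, hσ2, hσ3, hσ4⟩ := two_factorization (dbl H Z) k
    (fun w => by
      have := dbl_degree H Z k hdegZ hdeg w
      convert this)
  -- classes of the dummy edges
  have hiz : ∀ z, z ∈ Z → ∃ i, σ i (z, false) = (z, true) ∨ σ i (z, true) = (z, false) := by
    intro z hz
    exact hσ2 _ _ (Or.inr ⟨rfl, hz, by simp⟩)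
  let f0 : V → Fin k := fun v => if h : v ∈ Z then (hiz v h).choose else ⟨0, hk⟩
  obtain ⟨cl, hcl1, hcl2⟩ := exists_classes G k R Z f0 (by
    intro v hv hvZ
    have := hR v hv hvZ
    rw [Set.ncard_eq_toFinset_card', Set.toFinset_ofPred] at this
    convert this)
  have hclZ : ∀ z ∈ Z, σ (cl z) (z, false) = (z, true) ∨ σ (cl z) (z, true) = (z, false) := by
    intro z hz
    rw [hcl1 z hz]
    simp only [f0, dif_pos hz]
    exact (hiz z hz).choose_spec
  let U : Fin k → V → Prop := fun i v => v ∈ R ∧ cl v = i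
  have hS : ∀ i, Setup G (σ i) (U i) (fun v => v ∈ Z) := by
    intro i
    refine ⟨fun w h => ?_, fun w => hσ4 i i w, ?_, ?_, ?_⟩
    · have := hσ1 i w
      rw [h] at this
      exact (dbl H Z).loopless.irrefl _ this
    · intro w
      rcases hσ1 i w with ⟨h1, h2⟩ | ⟨h1, h2, h3⟩
      · exact Or.inl ⟨h1, hHG h2⟩
      · refine Or.inr ⟨h1, h3, h2, hZR h2, ?_⟩
        obtain ⟨z, b⟩ := w
        simp only at h1 h2 h3 ⊢
        have hw : σ i (z, b) = (z, !b) := by
          ext
          · exact h1.symm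
          · change (σ i (z, b)).2 = !b
            revert h3
            generalize (σ i (z, b)).2 = t
            cases b <;> cases t <;> simp
        rcases hclZ z h2 with h | h
        · cases b with
          | false => exact hσ3 _ _ (z, false) (by rw [h, hw]; rfl)
          | true =>
            exfalso
            apply hσ4 (cl z) i (z, true)
            rw [hw]; exact h
        · cases b with
          | false =>
            exfalso
            apply hσ4 (cl z) i (z, false)
            rw [hw]; exact h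
          | true => exact hσ3 _ _ (z, true) (by rw [h, hw]; rfl)
    · rintro v ⟨hvR, rfl⟩ hvZ
      rcases hclZ v hvZ with h | h
      · left; rw [h]
      · right
        have : (σ (cl v)).symm (v, false) = (v, true) := by rw [Equiv.symm_apply_eq, h]
        rw [this]
    · intro u v hu hv
      exact hZ u hu v hv
  have hcard : ∀ i v, U i v → ¬ v ∈ Z → Set.ncard {u | G.Adj v u ∧ U i u} ≤ 2 := by
    rintro i v ⟨hvR, rfl⟩ hvZ
    have := hcl2 v hvR hvZ
    rw [Set.ncard_eq_toFinset_card', Set.toFinset_ofPred]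
    convert this
  have hcol := fun i => class_col (hS i) (hcard i)
  choose χ f g hχ1 hχ2 hfg using hcol
  -- edges of the first copy
  have hedge : ∀ u v, H.Adj u v → ∃ i, σ i (u, false) = (v, false) ∨ σ i (v, false) = (u, false) :=
    fun u v h => hσ2 _ _ (Or.inl ⟨rfl, h⟩)
  let α : V → V → Option (Fin k × Fin 4) := fun u v =>
    if h : ∃ i, σ i (u, false) = (v, false) then toC h.choose (f h.choose (u, false))
    else if h : ∃ i, σ i (v, false) = (u, false) then toC h.choose (g h.choose (v, false))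
    else none
  have αout : ∀ i u v, σ i (u, false) = (v, false) → α u v = toC i (f i (u, false)) := by
    intro i u v h
    have hex : ∃ i, σ i (u, false) = (v, false) := ⟨i, h⟩
    have e : hex.choose = i := hσ3 _ _ (u, false) (by rw [hex.choose_spec, h])
    simp only [α]
    rw [dif_pos hex, e]
  have αin : ∀ i u v, σ i (v, false) = (u, false) → α u v = toC i (g i (v, false)) := by
    intro i u v h
    have hnex : ¬ ∃ i, σ i (u, false) = (v, false) := by
      rintro ⟨j, hj⟩
      apply hσ4 j i (v, false)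
      rw [h, hj]
    have hex : ∃ i, σ i (v, false) = (u, false) := ⟨i, h⟩
    have e : hex.choose = i := hσ3 _ _ (v, false) (by rw [hex.choose_spec, h])
    simp only [α]
    rw [dif_neg hnex, dif_pos hex, e]
  -- data of one arc: class, value, star property at both ends
  have hF : ∀ i u v, σ i (u, false) = (v, false) →
      (f i (u, false) ≤ 4 ∧ g i (u, false) ≤ 4 ∧ f i (u, false) ≠ g i (u, false)) ∧
      (U i u → f i (u, false) ≠ χ i u ∧ g i (u, false) ≠ χ i u) ∧
      (U i v → f i (u, false) ≠ χ i v ∧ g i (u, false) ≠ χ i v) ∧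
      (f i (u, false) = 4 → U i u ∧ u ∉ Z ∧ U i v) ∧
      (g i (u, false) = 4 → U i v ∧ v ∉ Z ∧ U i u) ∧
      (∀ w, σ i (v, false) = (w, false) → f i (u, false) ≠ f i (v, false) ∧
        g i (u, false) ≠ f i (v, false) ∧ g i (u, false) ≠ g i (v, false)) := by
    intro i u v h
    have := hfg i (u, false) rfl (by rw [h])
    rw [h] at this
    obtain ⟨t1, t2, t3, t4, t5, t6⟩ := this
    exact ⟨t1, t2, t3, t4, t5, fun w hw => t6 (by rw [hw])⟩
  have hUU : ∀ i j v, U i v → U j v → i = j := by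
    rintro i j v ⟨-, rfl⟩ ⟨-, rfl⟩; rfl
  refine ⟨fun v => (cl v, ⟨χ (cl v) v % 4, Nat.mod_lt _ (by norm_num)⟩), α, ?_, ?_, ?_, ?_, ?_⟩
  · intro u hu v hv huv e
    simp only [Prod.mk.injEq, Fin.mk.injEq] at e
    obtain ⟨e1, e2⟩ := e
    have h1 := hχ1 (cl u) u ⟨hu, rfl⟩
    have h2 := hχ1 (cl v) v ⟨hv, rfl⟩
    rw [Nat.mod_eq_of_lt h1, Nat.mod_eq_of_lt h2] at e2
    apply hχ2 (cl u) u v ⟨hu, rfl⟩ ⟨hv, e1.symm⟩ huv
    rw [e2, e1]
  · intro u v huv hu
    have h1 := hχ1 (cl u) u ⟨hu, rfl⟩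
    have hval : (⟨χ (cl u) u % 4, Nat.mod_lt _ (by norm_num)⟩ : Fin 4) = ⟨χ (cl u) u, h1⟩ := by
      ext; exact Nat.mod_eq_of_lt h1
    simp only
    rw [hval]
    obtain ⟨i, hi | hi⟩ := hedge u v huv
    · rw [αout i u v hi, αin i v u hi]
      obtain ⟨t1, t2, t3, t4, t5, t6⟩ := hF i u v hi
      by_cases hc : cl u = i
      · have := t2 ⟨hu, hc⟩
        subst hc
        exact ⟨toC_some h1 this.1, toC_some h1 this.2⟩
      · exact ⟨toC_some' hc, toC_some' hc⟩
    · rw [αout i v u hi, αin i u v hi]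
      obtain ⟨t1, t2, t3, t4, t5, t6⟩ := hF i v u hi
      by_cases hc : cl u = i
      · have := t3 ⟨hu, hc⟩
        subst hc
        exact ⟨toC_some h1 this.2, toC_some h1 this.1⟩
      · exact ⟨toC_some' hc, toC_some' hc⟩
  · intro u v w huv huw hvw
    obtain ⟨i, hi⟩ := hedge u v huv
    obtain ⟨j, hj⟩ := hedge u w huw
    -- star at u
    have star : ∀ i v, (σ i (u, false) = (v, false) ∨ σ i (v, false) = (u, false)) →
        α u v = none → U i u := by
      rintro i v (hi | hi) hn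
      · rw [αout i u v hi] at hn
        obtain ⟨t1, t2, t3, t4, t5, t6⟩ := hF i u v hi
        exact (t4 (toC_none t1.1 hn)).1
      · rw [αin i u v hi] at hn
        obtain ⟨t1, t2, t3, t4, t5, t6⟩ := hF i v u hi
        exact (t5 (toC_none t1.2.1 hn)).1
    by_cases hij : i = j
    · subst hij
      rcases hi with hi | hi <;> rcases hj with hj | hj
      · exfalso
        rw [hi] at hj
        exact hvw (Prod.mk.inj hj).1
      · rw [αout i u v hi, αin i u w hj]
        obtain ⟨t1, t2, t3, t4, t5, t6⟩ := hF i u v hi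
        obtain ⟨s1, s2, s3, s4, s5, s6⟩ := hF i w u hj
        exact toC_ne t1.1 s1.2.1 (s6 v hi).2.1.symm
      · rw [αin i u v hi, αout i u w hj]
        obtain ⟨t1, t2, t3, t4, t5, t6⟩ := hF i v u hi
        obtain ⟨s1, s2, s3, s4, s5, s6⟩ := hF i u w hj
        exact toC_ne t1.2.1 s1.1 (t6 w hj).2.1
      · exfalso
        rw [← hj] at hi
        exact hvw (Prod.mk.inj ((σ i).injective hi)).1
    · have hns : ¬ (α u v = none ∧ α u w = none) := by
        rintro ⟨n1, n2⟩
        exact hij (hUU _ _ _ (star i v hi n1) (star j w hj n2))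
      rcases hi with hi | hi <;> rcases hj with hj | hj
      · rw [αout i u v hi, αout j u w hj] at hns ⊢; exact toC_ne' hij hns
      · rw [αout i u v hi, αin j u w hj] at hns ⊢; exact toC_ne' hij hns
      · rw [αin i u v hi, αout j u w hj] at hns ⊢; exact toC_ne' hij hns
      · rw [αin i u v hi, αin j u w hj] at hns ⊢; exact toC_ne' hij hns
  · intro u v w huv hvw
    obtain ⟨i, hi⟩ := hedge u v huv
    obtain ⟨j, hj⟩ := hedge v w hvw
    have star1 : ∀ i, (σ i (u, false) = (v, false) ∨ σ i (v, false) = (u, false)) →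
        α u v = none → U i v := by
      rintro i (hi | hi) hn
      · rw [αout i u v hi] at hn
        obtain ⟨t1, t2, t3, t4, t5, t6⟩ := hF i u v hi
        exact (t4 (toC_none t1.1 hn)).2.2
      · rw [αin i u v hi] at hn
        obtain ⟨t1, t2, t3, t4, t5, t6⟩ := hF i v u hi
        exact (t5 (toC_none t1.2.1 hn)).2.2
    have star2 : ∀ i, (σ i (v, false) = (w, false) ∨ σ i (w, false) = (v, false)) →
        α v w = none → U i v := by
      rintro i (hi | hi) hn
      · rw [αout i v w hi] at hn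
        obtain ⟨t1, t2, t3, t4, t5, t6⟩ := hF i v w hi
        exact (t4 (toC_none t1.1 hn)).1
      · rw [αin i v w hi] at hn
        obtain ⟨t1, t2, t3, t4, t5, t6⟩ := hF i w v hi
        exact (t5 (toC_none t1.2.1 hn)).1
    by_cases hij : i = j
    · subst hij
      rcases hi with hi | hi <;> rcases hj with hj | hj
      · rw [αout i u v hi, αout i v w hj]
        obtain ⟨t1, t2, t3, t4, t5, t6⟩ := hF i u v hi
        obtain ⟨s1, s2, s3, s4, s5, s6⟩ := hF i v w hj
        exact toC_ne t1.1 s1.1 (t6 w hj).1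
      · rw [αout i u v hi, αin i v w hj]
        have : u = w := by
          rw [← hj] at hi
          exact (Prod.mk.inj ((σ i).injective hi)).1
        subst this
        obtain ⟨t1, t2, t3, t4, t5, t6⟩ := hF i u v hi
        exact toC_ne t1.1 t1.2.1 t1.2.2
      · rw [αin i u v hi, αout i v w hj]
        obtain ⟨t1, t2, t3, t4, t5, t6⟩ := hF i v w hj
        exact toC_ne t1.2.1 t1.1 t1.2.2.symm
      · rw [αin i u v hi, αin i v w hj]
        obtain ⟨t1, t2, t3, t4, t5, t6⟩ := hF i v u hi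
        obtain ⟨s1, s2, s3, s4, s5, s6⟩ := hF i w v hj
        exact toC_ne t1.2.1 s1.2.1 (s6 u hi).2.2.symm
    · have hns : ¬ (α u v = none ∧ α v w = none) := by
        rintro ⟨n1, n2⟩
        exact hij (hUU _ _ _ (star1 i hi n1) (star2 j hj n2))
      rcases hi with hi | hi <;> rcases hj with hj | hj
      · rw [αout i u v hi, αout j v w hj] at hns ⊢; exact toC_ne' hij hns
      · rw [αout i u v hi, αin j v w hj] at hns ⊢; exact toC_ne' hij hns
      · rw [αin i u v hi, αout j v w hj] at hns ⊢; exact toC_ne' hij hns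
      · rw [αin i u v hi, αin j v w hj] at hns ⊢; exact toC_ne' hij hns
  · intro u v huv hn
    obtain ⟨i, hi | hi⟩ := hedge u v huv
    · rw [αout i u v hi] at hn
      obtain ⟨t1, t2, t3, t4, t5, t6⟩ := hF i u v hi
      obtain ⟨m1, m2, m3⟩ := t4 (toC_none t1.1 hn)
      exact ⟨m1.1, m2, m3.1⟩
    · rw [αin i u v hi] at hn
      obtain ⟨t1, t2, t3, t4, t5, t6⟩ := hF i v u hi
      obtain ⟨m1, m2, m3⟩ := t5 (toC_none t1.2.1 hn)
      exact ⟨m1.1, m2, m3.1⟩

end TT
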