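import Pool.Agent.Helper30.TT.Aut

namespace TT

theorem testBit_pre (rs : List ℕ) (X i : ℕ) :
    (pre rs X).testBit i = (Nat.land (rs.getD i 0) X != 0) := by
  induction rs generalizing i with
  | nil => simp [pre]
  | cons r rs ih =>
    cases i with
    | zero => rw [pre, Nat.testBit_bit_zero]; simp
    | succ i => rw [pre, Nat.testBit_bit_succ, ih]; simp

theorem land_ne_zero {a b : ℕ} :
    (Nat.land a b != 0) = true ↔ ∃ j, a.testBit j = true ∧ b.testBit j = true := by
  have e : Nat.land a b = a &&& b := rfl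
  rw [e]
  constructor
  · intro h
    by_contra hc
    push Not at hc
    have : a &&& b = 0 := by
      apply Nat.eq_of_testBit_eq
      intro j
      rw [Nat.testBit_and, Nat.zero_testBit]
      by_cases ha : a.testBit j = true
      · have := hc j ha
        simp_all
      · simp_all
    simp [this] at h
  · rintro ⟨j, ha, hb⟩
    simp only [bne_iff_ne, ne_eq]
    intro h0
    have := congrArg (fun n => n.testBit j) h0
    simp [Nat.testBit_and, ha, hb] at this

theorem sub_spec {a b : ℕ} (h : sub a b = true) {i : ℕ} (hi : a.testBit i = true) :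
    b.testBit i = true := by
  have e : Nat.land a b = a &&& b := rfl
  unfold sub at h
  rw [e] at h
  have h' : a &&& b = a := by simpa using h
  have := congrArg (fun n => n.testBit i) h'
  simp only [Nat.testBit_and] at this
  rw [hi] at this
  simpa using this

/-- table transitions -/
def tt (l : Letter) (i j : ℕ) : Prop := ((rowsOf l).getD i 0).testBit j = true

theorem pre_iff {l : Letter} {X i : ℕ} :
    (pre (rowsOf l) X).testBit i = true ↔ ∃ j, tt l i j ∧ X.testBit j = true := by
  rw [testBit_pre, land_ne_zero]; rfl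

theorem land_testBit {a b i : ℕ} :
    (Nat.land a b).testBit i = true ↔ a.testBit i = true ∧ b.testBit i = true := by
  have e : Nat.land a b = a &&& b := rfl
  rw [e, Nat.testBit_and]; simp

theorem length_rows : (allL.all fun l => (rowsOf l).length == 61) = true := by decide +kernel

theorem tt_lt {l : Letter} {i j : ℕ} (h : tt l i j) : i < 61 ∧ j < 61 := by
  have hlen : (rowsOf l).length = 61 := by
    have := (List.all_eq_true.mp length_rows) l (mem_allL l)
    simpa using this
  have hi : i < 61 := by
    by_contra hc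
    unfold tt at h
    rw [List.getD_eq_default _ _ (by omega)] at h
    simp at h
  refine ⟨hi, ?_⟩
  have h1 := (List.all_eq_true.mp soundCheck_true) l (mem_allL l)
  have h2 := (List.all_eq_true.mp h1) i (by simpa using hi)
  simp only [Bool.and_eq_true, decide_eq_true_eq] at h2
  have h3 : (rowsOf l).getD i 0 < 2 ^ 61 := h2.1
  by_contra hc
  have : ((rowsOf l).getD i 0).testBit j = false :=
    Nat.testBit_lt_two_pow (lt_of_lt_of_le h3 (Nat.pow_le_pow_right (by norm_num) (by omega)))
  unfold tt at h
  rw [this] at h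
  simp at h

theorem tt_tr {l : Letter} {i j : ℕ} (h : tt l i j) :
    tr (sts.getD i none) l (sts.getD j none) = true := by
  obtain ⟨hi, hj⟩ := tt_lt h
  have h1 := (List.all_eq_true.mp soundCheck_true) l (mem_allL l)
  have h2 := (List.all_eq_true.mp h1) i (by simpa using hi)
  simp only [Bool.and_eq_true] at h2
  have h3 := (List.all_eq_true.mp h2.2) j (by simpa using hj)
  unfold tt at h
  rw [h] at h3
  simpa using h3

theorem tt_vm {l : Letter} {i j : ℕ} (h : tt l i j) : (vm l).testBit j = true := by
  obtain ⟨hi, hj⟩ := tt_lt h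
  have h1 := (List.all_eq_true.mp vmCheck_true) l (mem_allL l)
  have h2 := (List.all_eq_true.mp h1) i (by simpa using hi)
  exact sub_spec h2 h

/-- runs of the automaton along a sequence of letters -/
def Run (L : ℕ → Letter) (i n s t : ℕ) : Prop :=
  ∃ y : ℕ → ℕ, y 0 = s ∧ y n = t ∧ ∀ j < n, tt (L (i + j + 1)) (y j) (y (j + 1))

theorem Run.refl (L : ℕ → Letter) (i s : ℕ) : Run L i 0 s s :=
  ⟨fun _ => s, rfl, rfl, fun j hj => by omega⟩

theorem Run.trans {L : ℕ → Letter} {i n m s t u : ℕ} (h1 : Run L i n s t)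
    (h2 : Run L (i + n) m t u) : Run L i (n + m) s u := by
  obtain ⟨y, hy0, hyn, hy⟩ := h1
  obtain ⟨z, hz0, hzm, hz⟩ := h2
  refine ⟨fun j => if j ≤ n then y j else z (j - n), by simp [hy0], ?_, ?_⟩
  · by_cases hm : m = 0
    · subst hm
      simp only [add_zero, le_refl, if_true]
      rw [hyn, ← hz0, hzm]
    · simp only
      rw [if_neg (by omega)]
      rw [show n + m - n = m by omega]; exact hzm
  · intro j hj
    by_cases hjn : j < n
    · simp only
      rw [if_pos (by omega), if_pos (by omega)]
      exact hy j hjn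
    · simp only
      rw [if_neg (show ¬ j + 1 ≤ n by omega)]
      have hz' := hz (j - n) (by omega)
      rw [show i + n + (j - n) + 1 = i + j + 1 by omega] at hz'
      rw [show j + 1 - n = j - n + 1 by omega]
      by_cases hjn' : j = n
      · subst hjn'
        rw [if_pos (le_refl _), hyn, ← hz0]
        simpa using hz'
      · rw [if_neg (by omega)]
        exact hz'

theorem Run.one {L : ℕ → Letter} {i s t : ℕ} (h : tt (L (i + 1)) s t) : Run L i 1 s t := by
  refine ⟨fun j => if j = 0 then s else t, by simp, by simp, ?_⟩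
  intro j hj
  have : j = 0 := by omega
  subst this
  simpa using h

theorem Run.congr {L L' : ℕ → Letter} {i i' n s t : ℕ} (h : Run L i n s t)
    (hL : ∀ j, 0 < j → j ≤ n → L (i + j) = L' (i' + j)) : Run L' i' n s t := by
  obtain ⟨y, hy0, hyn, hy⟩ := h
  refine ⟨y, hy0, hyn, fun j hj => ?_⟩
  have := hy j hj
  rw [show i + j + 1 = i + (j + 1) by ring, hL (j + 1) (by omega) (by omega)] at this
  exact this

def Inv (L : ℕ → Letter) (i s : ℕ) : Prop :=
  (vm (L i)).testBit s = true ∧ (A2 (L (i + 1)) (L (i + 2))).testBit s = true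

theorem Inv.step {L : ℕ → Letter} (hok : ∀ j, ok3 (L j) (L (j + 1)) (L (j + 2)) = true)
    {i s : ℕ} (h : Inv L i s) : ∃ t, tt (L (i + 1)) s t ∧ Inv L (i + 1) t := by
  have h0 := (List.all_eq_true.mp plCheck_true) (L i) (mem_allL _)
  have h1 := (List.all_eq_true.mp h0) (L (i + 1)) (mem_allL _)
  have hk := hok i
  have hk' := hok (i + 1)
  have h01 : ok2 (L i) (L (i + 1)) = true := by
    unfold ok3 at hk; simp only [Bool.and_eq_true] at hk; exact hk.1.1
  simp only [h01, Bool.not_true, Bool.false_or] at h1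
  have h2 := (List.all_eq_true.mp h1) (L (i + 2)) (mem_allL _)
  simp only [hk, Bool.not_true, Bool.false_or] at h2
  have h3 := (List.all_eq_true.mp h2) (L (i + 3)) (mem_allL _)
  rw [show L (i + 3) = L (i + 1 + 2) from rfl, show L (i + 2) = L (i + 1 + 1) from rfl] at h3
  simp only [hk', Bool.not_true, Bool.false_or] at h3
  have h4 := sub_spec h3 (land_testBit.mpr ⟨h.1, h.2⟩)
  obtain ⟨t, ht, ht2⟩ := pre_iff.mp h4
  exact ⟨t, ht, (land_testBit.mp ht2).1, (land_testBit.mp ht2).2⟩

theorem Inv.run {L : ℕ → Letter} (hok : ∀ j, ok3 (L j) (L (j + 1)) (L (j + 2)) = true)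
    {i s : ℕ} (h : Inv L i s) (n : ℕ) : ∃ t, Run L i n s t ∧ Inv L (i + n) t := by
  induction n with
  | zero => exact ⟨s, Run.refl _ _ _, h⟩
  | succ n ih =>
    obtain ⟨t, ht, hi⟩ := ih
    obtain ⟨u, hu, hiu⟩ := hi.step hok
    exact ⟨u, ht.trans (Run.one hu), hiu⟩

/-- a closed run of length `n` from position `i` -/
def Closed (L : ℕ → Letter) (i n : ℕ) : Prop := ∃ s, Run L i n s s

theorem closed_of_mark {L : ℕ → Letter} (hok : ∀ j, ok3 (L j) (L (j + 1)) (L (j + 2)) = true)
    {n : ℕ} (hn : 3 ≤ n) (hper : ∀ j, L (j + n) = L j) {i : ℕ}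
    (h : markOk (L i) (L (i + 1)) (L (i + 2)) (L (i + 3)) (L (i + 4)) (L (i + 5)) = true) :
    Closed L (i + 3) n := by
  unfold markOk at h
  obtain ⟨s, -, hs⟩ := List.any_eq_true.mp h
  simp only [Bool.and_eq_true] at hs
  obtain ⟨hs1, hs2⟩ := hs
  have hs3 := land_testBit.mp hs1
  have hinv : Inv L (i + 3) s := ⟨hs3.1, hs3.2⟩
  obtain ⟨t, ht, hti⟩ := hinv.run hok (n - 3)
  have e1 : i + 3 + (n - 3) = i + n := by omega
  rw [e1] at hti
  have h0 : (Nat.land (vm (L i)) (A2 (L (i + 1)) (L (i + 2)))).testBit t = true := by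
    refine land_testBit.mpr ⟨?_, ?_⟩
    · have := hti.1; rwa [hper i] at this
    · have := hti.2
      rw [show i + n + 1 = i + 1 + n by ring, show i + n + 2 = i + 2 + n by ring, hper, hper] at this
      exact this
  obtain ⟨a, ha, ha'⟩ := pre_iff.mp (sub_spec hs2 h0)
  obtain ⟨b, hb, hb'⟩ := pre_iff.mp ha'
  obtain ⟨c, hc, hc'⟩ := pre_iff.mp hb'
  have hcs : c = s := by
    rw [Nat.testBit_two_pow] at hc'
    have h' : s = c := by simpa using hc'
    exact h'.symm
  subst hcs
  refine ⟨c, ?_⟩
  have hr : Run L i 3 t c := (Run.one ha).trans ((Run.one hb).trans (Run.one hc))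
  have hr' : Run L (i + 3 + (n - 3)) 3 t c := by
    refine hr.congr ?_
    intro j _ _
    rw [e1, show i + n + j = i + j + n by ring, hper]
  have := ht.trans hr'
  rwa [show n - 3 + 3 = n by omega] at this

theorem all_spec {p : Letter → Bool} {l : List Letter} (h : l.all p = true) {a : Letter}
    (ha : a ∈ l) : p a = true := List.all_eq_true.mp h a ha

/-- letters other than `G`, `L`, `R` are in `allM` -/
theorem mem_allM {l : Letter} (h1 : isG l = false) (h2 : isZ l = false) : l ∈ allM := by
  cases l with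
  | G => simp [isG] at h1
  | F => decide
  | I => decide
  | C a => fin_cases a <;> decide
  | L a => simp [isZ] at h2
  | R a => simp [isZ] at h2

section seq

variable {L : ℕ → Letter} (hok : ∀ j, ok3 (L j) (L (j + 1)) (L (j + 2)) = true)
  {n : ℕ} (hn : 3 ≤ n) (hper : ∀ j, L (j + n) = L j)

include hok in
theorem ok2_of (j : ℕ) : ok2 (L j) (L (j + 1)) = true := by
  have := hok j
  unfold ok3 at this
  simp only [Bool.and_eq_true] at this
  exact this.1.1

include hok hn hper

omit hn in
theorem closed_G {i : ℕ} (h : L i = .G) : Closed L i n := by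
  have hinv : Inv L i 0 := by
    have h1 := all_spec gCheck_true (mem_allL (L (i + 1)))
    have hk2 := ok2_of hok i
    have hk3 := hok i
    rw [h] at hk2 hk3
    simp only [hk2, Bool.not_true, Bool.false_or] at h1
    have h2 := all_spec h1 (mem_allL (L (i + 2)))
    simp only [hk3, Bool.not_true, Bool.false_or] at h2
    have h3 := land_testBit.mp h2
    exact ⟨by rw [h]; exact h3.1, h3.2⟩
  obtain ⟨t, ht, hti⟩ := hinv.run hok n
  have : t = 0 := by
    have h1 := hti.1
    rw [hper, h, vmG] at h1
    rw [show (1 : ℕ) = 2 ^ 0 from rfl, Nat.testBit_two_pow] at h1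
    have h' : 0 = t := by simpa using h1
    exact h'.symm
  subst this
  exact ⟨0, ht⟩

/-- no `G` implies no `L`, `R` -/
theorem noZ_of_noG (hG : ∀ j, isG (L j) = false) (j : ℕ) : isZ (L j) = false := by
  have h1 := ok2_of hok j
  have h2 := ok2_of hok (j + n - 1)
  have e1 : j + n - 1 + 1 = j + n := by omega
  rw [e1, hper] at h2
  have g1 := hG (j + 1)
  have g2 := hG (j + n - 1)
  unfold ok2 at h1 h2
  cases hL : L j with
  | L a => 
    rw [hL] at h2
    simp [isL, g2] at h2
  | R a =>
    rw [hL] at h1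
    simp [isR, g1] at h1
  | _ => simp [isZ]

theorem mem_allM_of_noG (hG : ∀ j, isG (L j) = false) (j : ℕ) : L j ∈ allM :=
  mem_allM (hG j) (noZ_of_noG hok hn hper hG j)

theorem closed_FFF (hG : ∀ j, isG (L j) = false) {i : ℕ} (h1 : L (i + 1) = .F)
    (h2 : L (i + 2) = .F) (h3 : L (i + 3) = .F) : Closed L (i + 3) n := by
  refine closed_of_mark hok hn hper ?_
  have c0 := hok i
  have c2 := hok (i + 2)
  have c3 := hok (i + 3)
  simp only [show i + 2 + 1 = i + 3 from rfl, show i + 2 + 2 = i + 4 from rfl,
    show i + 3 + 1 = i + 4 from rfl, show i + 3 + 2 = i + 5 from rfl] at c2 c3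
  rw [h1, h2] at c0
  rw [h2, h3] at c2
  rw [h3] at c3
  rw [h1, h2, h3]
  have m := all_spec (all_spec markA_true (mem_allM_of_noG hok hn hper hG i))
    (mem_allM_of_noG hok hn hper hG (i + 4))
  simp only [c0, c2, Bool.not_true, Bool.false_or] at m
  have m2 := all_spec m (mem_allM_of_noG hok hn hper hG (i + 5))
  simp only [c3, Bool.not_true, Bool.false_or] at m2
  exact m2

theorem closed_FCI (hG : ∀ j, isG (L j) = false) {i : ℕ} (h0 : L i = .F)
    (h1 : isC (L (i + 1)) = true)
    (h2 : L (i + 2) = .I) : Closed L (i + 3) n := by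
  refine closed_of_mark hok hn hper ?_
  have c1 := hok (i + 1)
  have c2 := hok (i + 2)
  have c3 := hok (i + 3)
  simp only [show i + 1 + 1 = i + 2 from rfl, show i + 1 + 2 = i + 3 from rfl,
    show i + 2 + 1 = i + 3 from rfl, show i + 2 + 2 = i + 4 from rfl,
    show i + 3 + 1 = i + 4 from rfl, show i + 3 + 2 = i + 5 from rfl] at c1 c2 c3
  rw [h2] at c1 c2
  rw [h0, h2]
  have m := all_spec markB_true (mem_allM_of_noG hok hn hper hG (i + 1))
  simp only [h1, Bool.not_true, Bool.false_or] at m
  have m2 := all_spec m (mem_allM_of_noG hok hn hper hG (i + 3))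
  simp only [c1, Bool.not_true, Bool.false_or] at m2
  have m3 := all_spec m2 (mem_allM_of_noG hok hn hper hG (i + 4))
  simp only [c2, Bool.not_true, Bool.false_or] at m3
  have m4 := all_spec m3 (mem_allM_of_noG hok hn hper hG (i + 5))
  simp only [c3, Bool.not_true, Bool.false_or] at m4
  exact m4

theorem closed_pair (hG : ∀ j, isG (L j) = false) {i : ℕ} (h0 : L i = .F)
    (h1 : isC (L (i + 1)) = true) (h2 : isC (L (i + 2)) = true) (h3 : L (i + 3) = .F)
    (h4 : L (i + 4) ≠ L (i + 2)) : Closed L (i + 3) n := by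
  refine closed_of_mark hok hn hper ?_
  have c0 := hok i
  have c2 := hok (i + 2)
  have c3 := hok (i + 3)
  simp only [show i + 2 + 1 = i + 3 from rfl, show i + 2 + 2 = i + 4 from rfl,
    show i + 3 + 1 = i + 4 from rfl, show i + 3 + 2 = i + 5 from rfl] at c2 c3
  rw [h0] at c0
  rw [h3] at c2 c3
  rw [h0, h3]
  have m := all_spec markC_true (mem_allM_of_noG hok hn hper hG (i + 1))
  simp only [h1, Bool.not_true, Bool.false_or] at m
  have m2 := all_spec m (mem_allM_of_noG hok hn hper hG (i + 2))
  simp only [h2, c0, Bool.not_true, Bool.false_or] at m2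
  have m3 := all_spec m2 (mem_allM_of_noG hok hn hper hG (i + 4))
  have h4' : (L (i + 4) == L (i + 2)) = false := by simpa using h4
  simp only [c2, h4', Bool.not_true, Bool.false_or] at m3
  have m4 := all_spec m3 (mem_allM_of_noG hok hn hper hG (i + 5))
  simp only [c3, Bool.not_true, Bool.false_or] at m4
  exact m4

theorem closed_single (hG : ∀ j, isG (L j) = false) {i : ℕ} (h0 : isC (L i) = true)
    (h1 : L (i + 1) = .F) (h2 : isC (L (i + 2)) = true) (h02 : L i ≠ L (i + 2))
    (h3 : L (i + 3) = .F)
    (h4 : L (i + 4) ≠ L (i + 2)) : Closed L (i + 3) n := by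
  refine closed_of_mark hok hn hper ?_
  have c2 := hok (i + 2)
  have c3 := hok (i + 3)
  simp only [show i + 2 + 1 = i + 3 from rfl, show i + 2 + 2 = i + 4 from rfl,
    show i + 3 + 1 = i + 4 from rfl, show i + 3 + 2 = i + 5 from rfl] at c2 c3
  rw [h3] at c2 c3
  rw [h1, h3]
  have m := all_spec markD_true (mem_allM_of_noG hok hn hper hG i)
  simp only [h0, Bool.not_true, Bool.false_or] at m
  have m2 := all_spec m (mem_allM_of_noG hok hn hper hG (i + 2))
  have h02' : (L i == L (i + 2)) = false := by simpa using h02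
  simp only [h2, h02', Bool.not_true, Bool.false_or] at m2
  have m3 := all_spec m2 (mem_allM_of_noG hok hn hper hG (i + 4))
  have h4' : (L (i + 4) == L (i + 2)) = false := by simpa using h4
  simp only [c2, h4', Bool.not_true, Bool.false_or] at m3
  have m4 := all_spec m3 (mem_allM_of_noG hok hn hper hG (i + 5))
  simp only [c3, Bool.not_true, Bool.false_or] at m4
  exact m4

omit hn in
theorem closed_gaps {i : ℕ} (h0 : isC (L (i + 1)) = true)
    (hC : ∀ j, isC (L j) = true → L (j + 1) = .F ∧ L (j + 2) = .F ∧ isC (L (j + 3)) = true) :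
    Closed L i n := by
  have hpos : ∀ t, isC (L (i + 3 * t + 1)) = true := by
    intro t
    induction t with
    | zero => simpa using h0
    | succ t ih =>
      have := (hC _ ih).2.2
      rwa [show i + 3 * t + 1 + 3 = i + 3 * (t + 1) + 1 by ring] at this
  have hmemC : ∀ l, isC l = true → l ∈ allM := by
    intro l hl
    cases l with
    | C a => fin_cases a <;> decide
    | _ => simp [isC] at hl
  have hrun : ∀ t, Run L i (3 * t) (eIdx (L (i + 1))) (eIdx (L (i + 3 * t + 1))) := by
    intro t
    induction t with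
    | zero => simpa using Run.refl L i _
    | succ t ih =>
      have hc := hpos t
      have hc' := hpos (t + 1)
      have m := all_spec markE_true (hmemC _ hc)
      simp only [hc, Bool.not_true, Bool.false_or] at m
      have m2 := all_spec m (hmemC _ hc')
      simp only [hc', Bool.not_true, Bool.false_or] at m2
      obtain ⟨a, ha, ha'⟩ := pre_iff.mp m2
      obtain ⟨b, hb, hb'⟩ := pre_iff.mp ha'
      obtain ⟨c, hcc, hc''⟩ := pre_iff.mp hb'
      have hcs : c = eIdx (L (i + 3 * (t + 1) + 1)) := by
        rw [Nat.testBit_two_pow] at hc''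
        have h' : eIdx (L (i + 3 * (t + 1) + 1)) = c := by simpa using hc''
        exact h'.symm
      subst hcs
      have hF := hC _ hc
      have hr : Run L (i + 3 * t) 3 (eIdx (L (i + 3 * t + 1)))
          (eIdx (L (i + 3 * (t + 1) + 1))) := by
        have r2 : Run L (i + 3 * t + 1) 1 a b := Run.one (by rw [hF.1]; exact hb)
        have r3 : Run L (i + 3 * t + 1 + 1) 1 b (eIdx (L (i + 3 * (t + 1) + 1))) :=
          Run.one (by
            rw [show i + 3 * t + 1 + 1 + 1 = i + 3 * t + 1 + 2 from rfl, hF.2.1]; exact hcc)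
        exact (Run.one (i := i + 3 * t) ha).trans (r2.trans r3)
      exact ih.trans hr
  have hmod : n % 3 = 0 := by
    have hlast := hpos (n / 3)
    have hF := hC _ hlast
    have hpn : isC (L (i + 1 + n)) = true := by rw [hper]; exact h0
    have hlt : n % 3 < 3 := Nat.mod_lt _ (by norm_num)
    have hdm := Nat.div_add_mod n 3
    rcases (show n % 3 = 0 ∨ n % 3 = 1 ∨ n % 3 = 2 by omega) with h | h | h
    · exact h
    · exfalso
      rw [show i + 1 + n = i + 3 * (n / 3) + 1 + 1 by omega, hF.1] at hpn
      simp [isC] at hpn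
    · exfalso
      rw [show i + 1 + n = i + 3 * (n / 3) + 1 + 2 by omega, hF.2.1] at hpn
      simp [isC] at hpn
  have := hrun (n / 3)
  rw [show 3 * (n / 3) = n by omega] at this
  rw [show i + n + 1 = i + 1 + n by ring, hper] at this
  exact ⟨_, this⟩

omit hok in
theorem closed_I (h : ∀ j, L j = .I) : Closed L 0 n := by
  rcases (show n = 3 ∨ 4 ≤ n by omega) with h3 | h4
  · subst h3
    obtain ⟨s, -, hs⟩ := List.any_eq_true.mp markI3_true
    obtain ⟨a, ha, ha'⟩ := pre_iff.mp hs
    obtain ⟨b, hb, hb'⟩ := pre_iff.mp ha'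
    obtain ⟨c, hc, hc'⟩ := pre_iff.mp hb'
    have hcs : c = s := by
      rw [Nat.testBit_two_pow] at hc'
      have h' : s = c := by simpa using hc'
      exact h'.symm
    subst hcs
    exact ⟨c, (Run.one (i := 0) (by rw [h]; exact ha)).trans
      ((Run.one (i := 0 + 1) (by rw [h]; exact hb)).trans
        (Run.one (i := 0 + 1 + 1) (by rw [h]; exact hc)))⟩
  · obtain ⟨s, -, hs⟩ := List.any_eq_true.mp markI_true
    simp only [Bool.and_eq_true] at hs
    obtain ⟨hs1, hs2⟩ := hs
    have hs3 := land_testBit.mp hs1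
    have hinv : Inv L 0 s := ⟨by rw [h]; exact hs3.1, by rw [h, h]; exact hs3.2⟩
    have hok : ∀ j, ok3 (L j) (L (j + 1)) (L (j + 2)) = true := by
      intro j; rw [h, h, h]; rfl
    obtain ⟨t, ht, hti⟩ := hinv.run hok (n - 4)
    have h0 : (Nat.land (vm .I) (A2 .I .I)).testBit t = true := by
      have h1 := hti.1
      have h2 := hti.2
      rw [h] at h1
      rw [h, h] at h2
      exact land_testBit.mpr ⟨h1, h2⟩
    obtain ⟨a, ha, ha'⟩ := pre_iff.mp (sub_spec hs2 h0)
    obtain ⟨b, hb, hb'⟩ := pre_iff.mp ha'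
    obtain ⟨c, hc, hc'⟩ := pre_iff.mp hb'
    obtain ⟨d, hd, hd'⟩ := pre_iff.mp hc'
    have hcs : d = s := by
      rw [Nat.testBit_two_pow] at hd'
      have h' : s = d := by simpa using hd'
      exact h'.symm
    subst hcs
    refine ⟨d, ?_⟩
    have hr : Run L (0 + (n - 4)) 4 t d :=
      (Run.one (by rw [h]; exact ha)).trans ((Run.one (by rw [h]; exact hb)).trans
        ((Run.one (by rw [h]; exact hc)).trans (Run.one (by rw [h]; exact hd))))
    have := ht.trans hr
    rwa [show n - 4 + 4 = n by omega] at this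

/-- the special conditions on a cyclic word without `G` and `I` -/
def Special (L : ℕ → Letter) : Prop :=
  (∀ i, L i = .F → isC (L (i + 1)) = true → isC (L (i + 2)) = true → L (i + 3) = .F →
      ∃ i, L i = .F ∧ isC (L (i + 1)) = true ∧ isC (L (i + 2)) = true ∧ L (i + 3) = .F ∧
        L (i + 4) ≠ L (i + 2)) ∧
  ((∀ i, ¬ (isC (L i) = true ∧ isC (L (i + 1)) = true)) →
    ∀ i, isC (L i) = true → L (i + 1) = .F → isC (L (i + 2)) = true → L (i + 3) = .F →
      ∃ i, isC (L i) = true ∧ L (i + 1) = .F ∧ isC (L (i + 2)) = true ∧ L (i + 3) = .F ∧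
        L i ≠ L (i + 2) ∧ L (i + 4) ≠ L (i + 2))

theorem exists_closed (hsp : (∀ j, isG (L j) = false) → (∀ j, isI (L j) = false) → Special L) :
    ∃ i, Closed L i n := by
  by_cases hG : ∃ j, isG (L j) = true
  · obtain ⟨j, hj⟩ := hG
    refine ⟨j, closed_G hok hper ?_⟩
    cases hL : L j with
    | G => rfl
    | _ => rw [hL] at hj; simp [isG] at hj
  push Not at hG
  have hG' : ∀ j, isG (L j) = false := fun j => by simpa using hG j
  have hZ := noZ_of_noG hok hn hper hG'
  -- every letter is `F`, `I` or `C`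
  have htri : ∀ j, L j = .F ∨ L j = .I ∨ isC (L j) = true := by
    intro j
    cases hL : L j with
    | G => have := hG' j; rw [hL] at this; simp [isG] at this
    | F => simp
    | I => simp
    | C a => simp [isC]
    | L a => have := hZ j; rw [hL] at this; simp [isZ] at this
    | R a => have := hZ j; rw [hL] at this; simp [isZ] at this
  by_cases hI : ∃ j, isI (L j) = true
  · obtain ⟨j0, hj0⟩ := hI
    have hIeq : ∀ j, isI (L j) = true → L j = .I := by
      intro j hj
      cases hL : L j with
      | I => rfl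
      | _ => rw [hL] at hj; simp [isI] at hj
    by_cases hall : ∀ j, L j = .I
    · exact ⟨0, closed_I hn hper hall⟩
    push Not at hall
    obtain ⟨j1, hj1⟩ := hall
    -- find a non-I letter followed by I
    have hperk : ∀ k j, L (j + k * n) = L j := by
      intro k
      induction k with
      | zero => intro j; simp
      | succ k ih => intro j; rw [show j + (k + 1) * n = j + k * n + n by ring, hper, ih]
    obtain ⟨m, hm1, hm2⟩ : ∃ m, L (m + 1) ≠ .I ∧ L (m + 2) = .I := by
      by_contra hc
      push Not at hc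
      have : ∀ k, L (j1 + n + k) ≠ .I := by
        intro k
        induction k with
        | zero => rw [add_zero, hper]; exact hj1
        | succ k ih =>
          have := hc (j1 + n + k - 1)
          rw [show j1 + n + k - 1 + 1 = j1 + n + k by omega,
            show j1 + n + k - 1 + 2 = j1 + n + (k + 1) by omega] at this
          exact this ih
      refine this (j0 + (j1 + n) * n - (j1 + n)) ?_
      have hle : j1 + n ≤ j0 + (j1 + n) * n := by nlinarith
      rw [show j1 + n + (j0 + (j1 + n) * n - (j1 + n)) = j0 + (j1 + n) * n by omega, hperk]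
      exact hIeq _ hj0
    have c1 := hok m
    rw [hm2] at c1
    have hmC : isC (L (m + 1)) = true := by
      rcases htri (m + 1) with h | h | h
      · have := ok2_of hok (m + 1)
        rw [show m + 1 + 1 = m + 2 from rfl, hm2, h] at this
        simp [ok2, isG, isR, isL, isI, isF] at this
      · exact absurd h hm1
      · exact h
    have hmF : L m = .F := by
      rcases htri m with h | h | h
      · exact h
      · rw [h] at c1
        simp [ok3, isU, hmC] at c1
      · have hU : isU (L m) = true := by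
          cases hL : L m with
          | C a => rfl
          | _ => rw [hL] at h; simp [isC] at h
        unfold ok3 at c1
        simp only [hmC, hU] at c1
        simp [isU] at c1
    exact ⟨m + 3, closed_FCI hok hn hper hG' hmF hmC hm2⟩
  push Not at hI
  have hI' : ∀ j, isI (L j) = false := fun j => by simpa using hI j
  have htri' : ∀ j, L j = .F ∨ isC (L j) = true := by
    intro j
    rcases htri j with h | h | h
    · exact Or.inl h
    · have := hI' j; rw [h] at this; simp [isI] at this
    · exact Or.inr h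
  obtain ⟨hs1, hs2⟩ := hsp hG' hI'
  have hCU : ∀ j, isC (L j) = true → isU (L j) = true := by
    intro j h
    cases hL : L j with
    | C a => rfl
    | _ => rw [hL] at h; simp [isC] at h
  -- no three consecutive C
  have h3C : ∀ j, isC (L j) = true → isC (L (j + 1)) = true → isC (L (j + 2)) = true → False := by
    intro j h1 h2 h3
    have := hok j
    simp [ok3, hCU _ h1, hCU _ h3, h2] at this
  by_cases hpair : ∃ i, isC (L i) = true ∧ isC (L (i + 1)) = true
  · obtain ⟨i0, hi1', hi2'⟩ := hpair
    obtain ⟨i, hi1, hi2⟩ : ∃ i, isC (L (i + 1)) = true ∧ isC (L (i + 2)) = true := by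
      refine ⟨i0 + n - 1, ?_, ?_⟩
      · rw [show i0 + n - 1 + 1 = i0 + n by omega, hper]; exact hi1'
      · rw [show i0 + n - 1 + 2 = i0 + 1 + n by omega, hper]; exact hi2'
    have hF0 : L i = .F := by
      rcases htri' i with h | h
      · exact h
      · exact (h3C i h hi1 hi2).elim
    have hF3 : L (i + 3) = .F := by
      rcases htri' (i + 3) with h | h
      · exact h
      · exact (h3C (i + 1) hi1 hi2 h).elim
    obtain ⟨m, m0, m1, m2, m3, m4⟩ := hs1 i hF0 hi1 hi2 hF3
    exact ⟨_, closed_pair hok hn hper hG' m0 m1 m2 m3 m4⟩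
  push Not at hpair
  have hnp : ∀ i, ¬ (isC (L i) = true ∧ isC (L (i + 1)) = true) := fun i h => hpair i h.1 h.2
  have hCF : ∀ i, isC (L i) = true → L (i + 1) = .F := by
    intro i h
    rcases htri' (i + 1) with h' | h'
    · exact h'
    · exact absurd ⟨h, h'⟩ (hnp i)
  by_cases hgap : ∃ i, isC (L i) = true ∧ isC (L (i + 2)) = true
  · obtain ⟨i, hi1, hi2⟩ := hgap
    obtain ⟨m, m0, m1, m2, m3, m4, m5⟩ := hs2 hnp i hi1 (hCF i hi1) hi2 (hCF _ hi2)
    exact ⟨_, closed_single hok hn hper hG' m0 m1 m2 m4 m3 m5⟩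
  push Not at hgap
  by_cases hFFF : ∃ i, L (i + 1) = .F ∧ L (i + 2) = .F ∧ L (i + 3) = .F
  · obtain ⟨i, h1, h2, h3⟩ := hFFF
    exact ⟨_, closed_FFF hok hn hper hG' h1 h2 h3⟩
  push Not at hFFF
  obtain ⟨i, hi⟩ : ∃ i, isC (L (i + 1)) = true := by
    by_contra hc
    push Not at hc
    have hF : ∀ j, L (j + 1) = .F := fun j => (htri' (j + 1)).resolve_right (hc j)
    exact hFFF 0 (hF 0) (hF 1) (hF 2)
  refine ⟨i, closed_gaps hok hper hi ?_⟩
  intro j hj
  have hF1 := hCF j hj
  have hF2 : L (j + 2) = .F := (htri' (j + 2)).resolve_right (hgap j hj)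
  refine ⟨hF1, hF2, ?_⟩
  exact (htri' (j + 3)).resolve_left (hFFF j hF1 hF2)

end seq

theorem exists_states {W : Type*} [Finite W] (σ : Equiv.Perm W) (lab : W → Letter)
    (h1 : ∀ w, σ w ≠ w) (h2 : ∀ w, σ (σ w) ≠ w)
    (hok : ∀ w, ok3 (lab w) (lab (σ w)) (lab (σ (σ w))) = true)
    (hsp : ∀ w, (∀ j : ℕ, isG (lab (σ^[j] w)) = false) →
      (∀ j : ℕ, isI (lab (σ^[j] w)) = false) → Special (fun j => lab (σ^[j] w))) :
    ∃ x : W → St, ∀ w, tr (x w) (lab (σ w)) (x (σ w)) = true := by
  classical
  have hper : ∀ w : W, w ∈ Function.periodicPts σ := fun w => σ.injective.mem_periodicPts w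
  have hn : ∀ w, 3 ≤ Function.minimalPeriod σ w := by
    intro w
    have h0 := Function.minimalPeriod_pos_of_mem_periodicPts (hper w)
    have h3 := Function.iterate_minimalPeriod (f := σ) (x := w)
    by_contra hc
    have hcase : Function.minimalPeriod σ w = 1 ∨ Function.minimalPeriod σ w = 2 := by omega
    rcases hcase with h | h
    · rw [h] at h3; exact h1 w (by simpa using h3)
    · rw [h] at h3; exact h2 w (by simpa using h3)
  have key : ∀ w, ∃ i : ℕ, ∃ y : ℕ → ℕ, y 0 = y (Function.minimalPeriod σ w) ∧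
      ∀ j < Function.minimalPeriod σ w, tt (lab (σ^[j + 1] (σ^[i] w))) (y j) (y (j + 1)) := by
    intro w
    have hokL : ∀ j, ok3 ((fun j => lab (σ^[j] w)) j) ((fun j => lab (σ^[j] w)) (j + 1))
        ((fun j => lab (σ^[j] w)) (j + 2)) = true := by
      intro j
      have := hok (σ^[j] w)
      simp only [Function.iterate_succ_apply']
      exact this
    have hperL : ∀ j, (fun j => lab (σ^[j] w)) (j + Function.minimalPeriod σ w) =
        (fun j => lab (σ^[j] w)) j := by
      intro j
      simp only
      rw [Function.iterate_add_apply, Function.iterate_minimalPeriod]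
    obtain ⟨i, s, y, hy0, hyn, hy⟩ := exists_closed hokL (hn w) hperL (hsp w)
    refine ⟨i, y, by rw [hy0, hyn], fun j hj => ?_⟩
    have := hy j hj
    simp only at this
    rw [show i + j + 1 = (j + 1) + i by ring, Function.iterate_add_apply] at this
    exact this
  choose i y hy0 hy using key
  let S := Equiv.Perm.SameCycle.setoid σ
  let q : W → Quotient S := fun w => Quotient.mk S w
  let w0 : W → W := fun w => (q w).out
  let r : W → W := fun w => σ^[i (w0 w)] (w0 w)
  have hminr : ∀ w, Function.minimalPeriod σ (r w) = Function.minimalPeriod σ (w0 w) := by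
    intro w
    exact Function.minimalPeriod_apply_iterate (hper _) _
  have hmin : ∀ w, Function.minimalPeriod σ (r w) = Function.minimalPeriod σ (w0 w) := hminr
  have hsame : ∀ w, ∃ j : ℕ, j < Function.minimalPeriod σ (w0 w) ∧ σ^[j] (r w) = w := by
    intro w
    have hw0 : Equiv.Perm.SameCycle σ (w0 w) w := Quotient.mk_out (s := S) w
    have hr : Equiv.Perm.SameCycle σ (r w) w := by
      obtain ⟨k, hk⟩ := hw0
      refine ⟨k - (i (w0 w) : ℕ), ?_⟩
      simp only [r]
      rw [← Equiv.Perm.coe_pow, zpow_sub, zpow_natCast, ← Equiv.Perm.mul_apply,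
        inv_mul_cancel_right]
      exact hk
    obtain ⟨k, hk⟩ := hr.exists_nat_pow_eq
    refine ⟨k % Function.minimalPeriod σ (r w), ?_, ?_⟩
    · rw [← hmin]
      exact Nat.mod_lt _ (Function.minimalPeriod_pos_of_mem_periodicPts (hper _))
    · rw [Function.iterate_mod_minimalPeriod_eq]
      rw [Equiv.Perm.coe_pow] at hk
      exact hk
  choose j hjlt hj using hsame
  refine ⟨fun w => sts.getD (y (w0 w) (j w)) none, fun w => ?_⟩
  have hqs : q (σ w) = q w := by
    apply Quotient.sound
    exact (Equiv.Perm.sameCycle_apply_left (f := σ)).mpr (Equiv.Perm.SameCycle.refl σ w)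
  have hw0s : w0 (σ w) = w0 w := by simp only [w0, hqs]
  have hrs : r (σ w) = r w := by simp only [r, hw0s]
  have hjs := hj (σ w)
  have hjslt := hjlt (σ w)
  rw [hw0s] at hjslt
  rw [hrs] at hjs
  have hstep : σ^[j w + 1] (r w) = σ w := by
    rw [Function.iterate_succ_apply', hj w]
  have htr := hy (w0 w) (j w) (hjlt w)
  change tt (lab (σ^[j w + 1] (r w))) _ _ at htr
  rw [hstep] at htr
  have hyeq : y (w0 w) (j w + 1) = y (w0 w) (j (σ w)) := by
    by_cases hlt : j w + 1 < Function.minimalPeriod σ (w0 w)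
    · have : j w + 1 = j (σ w) := by
        have hinj := Function.iterate_injOn_Iio_minimalPeriod (f := σ) (x := r w)
        refine hinj ?_ ?_ ?_
        · rw [Set.mem_Iio, hmin]; exact hlt
        · rw [Set.mem_Iio, hmin]; exact hjslt
        · simp only; rw [hstep, hjs]
      rw [this]
    · have e : j w + 1 = Function.minimalPeriod σ (w0 w) := by
        have := hjlt w; omega
      have hrw : σ w = r w := by
        rw [← hstep, e, ← hmin, Function.iterate_minimalPeriod]
      have : 0 = j (σ w) := by
        have hinj := Function.iterate_injOn_Iio_minimalPeriod (f := σ) (x := r w)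
        refine hinj ?_ ?_ ?_
        · rw [Set.mem_Iio, hmin]; exact lt_of_lt_of_le (by norm_num) (hn _)
        · rw [Set.mem_Iio, hmin]; exact hjslt
        · simp only; rw [hjs]; simpa using hrw.symm
      rw [e, ← hy0, this]
  rw [hyeq] at htr
  have := tt_tr htr
  simp only [hw0s]
  exact this

end TT
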