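import Mathlib

namespace Pool.Agent.Helper30.TT

/-- The `3`-subdivision `G^{1/3}`.  Its vertices are the vertices of `G` and two new vertices on
each edge: the new vertex next to `v` on the edge `vu` is the dart `(v, u)`.  The edge `vu` becomes
the path `v, (v, u), (u, v), u`. -/
def subdiv3 {V : Type*} (G : SimpleGraph V) : SimpleGraph (V ⊕ G.Dart) where
  Adj x y := match x, y with
    | .inl _, .inl _ => False
    | .inl v, .inr d => d.fst = v
    | .inr d, .inl v => d.fst = v
    | .inr d, .inr d' => d' = d.symm
  symm := ⟨by
    rintro (v | d) (u | d') h
    · exact h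
    · exact h
    · exact h
    · change d = d'.symm
      change d' = d.symm at h
      rw [h, SimpleGraph.Dart.symm_symm]⟩
  loopless := ⟨by
    rintro (v | d) h
    · exact h
    · change d = d.symm at h
      exact d.symm_ne h.symm⟩

/-- The `m`-th power of a graph: two distinct vertices are adjacent when their distance is at most
`m` (the distance is `⊤` when they are in different components). -/
def power {W : Type*} (H : SimpleGraph W) (m : ℕ) : SimpleGraph W where
  Adj x y := x ≠ y ∧ H.edist x y ≤ m
  symm := ⟨fun x y h => ⟨h.1.symm, by rw [SimpleGraph.edist_comm]; exact h.2⟩⟩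
  loopless := ⟨fun _ h => h.1 rfl⟩

end Pool.Agent.Helper30.TT
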