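import Pool.Agent.Helper30.TT.Defs
import Pool.Agent.Helper30.TT.Core
import Pool.Agent.Helper40.RegularSuper
import Pool.Agent.Helper16.StarForest

namespace TT

open Pool.Agent.Helper30.TT

/-- colourings of vertices and arcs which give colourings of `G^{3/3}` -/
structure ArcCol {V C : Type*} (G : SimpleGraph V) (vc : V → C) (ac : V → V → C) : Prop where
  h1 : ∀ u v, G.Adj u v → vc u ≠ vc v
  h2 : ∀ u v, G.Adj u v → vc u ≠ ac u v
  h3 : ∀ u v, G.Adj u v → vc u ≠ ac v u
  h4 : ∀ u v w, G.Adj u v → G.Adj u w → v ≠ w → ac u v ≠ ac u w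
  h5 : ∀ u v w, G.Adj u v → G.Adj v w → ac u v ≠ ac v w

theorem short_walk {W : Type*} {H : SimpleGraph W} {x y : W} (h : H.edist x y ≤ 3) :
    x = y ∨ H.Adj x y ∨ (∃ a, H.Adj x a ∧ H.Adj a y) ∨
      (∃ a b, H.Adj x a ∧ H.Adj a b ∧ H.Adj b y) := by
  have hne : H.edist x y ≠ ⊤ := by
    intro e
    rw [e] at h
    exact absurd h (by decide)
  obtain ⟨p, hp⟩ := SimpleGraph.exists_walk_of_edist_ne_top hne
  rw [← hp] at h
  have hl : p.length ≤ 3 := by exact_mod_cast h
  cases p with
  | nil => exact Or.inl rfl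
  | cons h1 p =>
    cases p with
    | nil => exact Or.inr (Or.inl h1)
    | cons h2 p =>
      cases p with
      | nil => exact Or.inr (Or.inr (Or.inl ⟨_, h1, h2⟩))
      | cons h3 p =>
        cases p with
        | nil => exact Or.inr (Or.inr (Or.inr ⟨_, _, h1, h2, h3⟩))
        | cons h4 p =>
          exfalso
          simp only [SimpleGraph.Walk.length_cons] at hl
          omega

theorem colorable_of_arcCol {V C : Type*} [Fintype C] {G : SimpleGraph V} {vc : V → C}
    {ac : V → V → C} (h : ArcCol G vc ac) : (power (subdiv3 G) 3).Colorable (Fintype.card C) := by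
  let col : V ⊕ G.Dart → C := Sum.elim vc (fun d => ac d.fst d.snd)
  have hvd : ∀ (v : V) (d : G.Dart), d.fst = v → vc v ≠ ac d.fst d.snd := by
    rintro v d rfl
    exact h.h2 _ _ d.adj
  have hvd' : ∀ (v : V) (d : G.Dart), d.snd = v → vc v ≠ ac d.fst d.snd := by
    rintro v d rfl
    exact h.h3 _ _ d.adj.symm
  have hdd : ∀ d d' : G.Dart, d.snd = d'.fst → ac d.fst d.snd ≠ ac d'.fst d'.snd := by
    intro d d' e
    have := h.h5 d.fst d.snd d'.snd d.adj (by rw [e]; exact d'.adj)
    rw [e] at this ⊢
    exact this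
  have key : ∀ x y, (power (subdiv3 G) 3).Adj x y → col x ≠ col y := by
    rintro x y ⟨hne, hxy⟩
    rcases short_walk (by exact_mod_cast hxy) with h0 | h1 | ⟨a, h1, h2⟩ | ⟨a, b, h1, h2, h3⟩
    · exact absurd h0 hne
    · rcases x with v | d <;> rcases y with u | d'
      · exact absurd h1 (by simp [subdiv3])
      · exact hvd v d' h1
      · exact (hvd u d h1).symm
      · change d' = d.symm at h1
        subst h1
        exact hdd d d.symm rfl
    · rcases x with v | d <;> rcases a with a | a <;> rcases y with u | d'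
      · exact absurd h1 (by simp [subdiv3])
      · exact absurd h1 (by simp [subdiv3])
      · change a.fst = v at h1
        change a.fst = u at h2
        exact absurd (by rw [← h1, ← h2]) hne
      · change a.fst = v at h1
        change d' = a.symm at h2
        subst h2
        exact hvd' v a.symm h1
      · exact absurd h2 (by simp [subdiv3])
      · change d.fst = a at h1
        change d'.fst = a at h2
        subst h1
        have hs : d.snd ≠ d'.snd := by
          intro e
          apply hne
          congr 1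
          ext
          · exact h2.symm
          · exact e
        have := h.h4 d.fst d.snd d'.snd d.adj (by rw [← h2]; exact d'.adj) hs
        change ac d.fst d.snd ≠ ac d'.fst d'.snd
        rw [h2]
        exact this
      · change a = d.symm at h1
        change a.fst = u at h2
        subst h1
        exact (hvd' u d h2).symm
      · change a = d.symm at h1
        change d' = a.symm at h2
        subst h1
        rw [SimpleGraph.Dart.symm_symm] at h2
        exact absurd (by rw [h2]) hne
    · rcases x with v | d <;> rcases a with a | a <;> rcases b with b | b <;>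
        rcases y with u | d'
      · exact absurd h1 (by simp [subdiv3])
      · exact absurd h1 (by simp [subdiv3])
      · exact absurd h1 (by simp [subdiv3])
      · exact absurd h1 (by simp [subdiv3])
      · exact absurd h3 (by simp [subdiv3])
      · change a.fst = v at h1
        change a.fst = b at h2
        change d'.fst = b at h3
        exact hvd v d' (by rw [h3, ← h2, h1])
      · change a.fst = v at h1
        change b = a.symm at h2
        change b.fst = u at h3
        subst h2
        change vc v ≠ vc u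
        rw [← h1, ← h3]
        exact h.h1 _ _ a.adj
      · change a.fst = v at h1
        change b = a.symm at h2
        change d' = b.symm at h3
        subst h2
        rw [SimpleGraph.Dart.symm_symm] at h3
        subst h3
        exact hvd v _ h1
      · exact absurd h2 (by simp [subdiv3])
      · exact absurd h2 (by simp [subdiv3])
      · change d.fst = a at h1
        change b.fst = a at h2
        change b.fst = u at h3
        exact (hvd u d (by rw [h1, ← h2, h3])).symm
      · change d.fst = a at h1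
        change b.fst = a at h2
        change d' = b.symm at h3
        subst h3
        exact (hdd b.symm d (by rw [h1, ← h2]; rfl)).symm
      · exact absurd h3 (by simp [subdiv3])
      · change a = d.symm at h1
        change a.fst = b at h2
        change d'.fst = b at h3
        subst h1
        exact hdd d d' (by rw [h3, ← h2]; rfl)
      · change a = d.symm at h1
        change b = a.symm at h2
        change b.fst = u at h3
        subst h1
        rw [SimpleGraph.Dart.symm_symm] at h2
        subst h2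
        exact (hvd u _ h3).symm
      · change a = d.symm at h1
        change b = a.symm at h2
        change d' = b.symm at h3
        subst h1
        rw [SimpleGraph.Dart.symm_symm] at h2
        subst h2
        subst h3
        exact hdd _ _ rfl
  have c : (power (subdiv3 G) 3).Coloring C := SimpleGraph.Coloring.mk col (fun {x y} h => key x y h)
  exact c.colorable

/-- the even regular case -/
theorem even_case {V : Type*} [Fintype V] (G : SimpleGraph V) (k : ℕ) (hk : 0 < k)
    (hreg : ∀ v, (G.neighborSet v).ncard = 2 * k) :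
    ∃ (vc : V → Option (Fin k × Fin 4)) (ac : V → V → Option (Fin k × Fin 4)),
      ArcCol G vc ac := by
  obtain ⟨φ, α, c1, c2, c3, c4, c5⟩ := core G G k hk le_rfl ∅ Set.univ (by simp) (by simp)
    (by simp) (fun v _ => hreg v) (by
      intro v _ _
      rw [← hreg v]
      apply Set.ncard_le_ncard _ (Set.toFinite _)
      rintro u ⟨hu, -⟩
      exact hu)
  refine ⟨fun v => some (φ v), α, ?_, ?_, ?_, c3, c4⟩
  · intro u v huv e
    exact c1 u (Set.mem_univ _) v (Set.mem_univ _) huv (Option.some.inj e)
  · intro u v huv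
    exact (c2 u v huv (Set.mem_univ _)).1
  · intro u v huv
    exact (c2 u v huv (Set.mem_univ _)).2

/-- a maximal independent set outside a given set -/
theorem exists_maxindep {V : Type*} [Finite V] (G : SimpleGraph V) (X : Set V) :
    ∃ S : Set V, (∀ v ∈ S, v ∉ X) ∧ (∀ u ∈ S, ∀ v ∈ S, ¬ G.Adj u v) ∧
      ∀ v, v ∉ X → v ∉ S → ∃ s ∈ S, G.Adj v s := by
  let T := {S : Set V // (∀ v ∈ S, v ∉ X) ∧ (∀ u ∈ S, ∀ v ∈ S, ¬ G.Adj u v)}
  have : Nonempty T := ⟨⟨∅, by simp, by simp⟩⟩
  have : Finite T := Subtype.finite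
  obtain ⟨⟨S, hS1, hS2⟩, hmax⟩ := Finite.exists_max (fun S : T => S.1.ncard)
  refine ⟨S, hS1, hS2, fun v hvX hvS => ?_⟩
  by_contra hc
  push Not at hc
  have h1 : (∀ u ∈ insert v S, u ∉ X) ∧ (∀ u ∈ insert v S, ∀ w ∈ insert v S, ¬ G.Adj u w) := by
    refine ⟨?_, ?_⟩
    · rintro u (rfl | hu)
      · exact hvX
      · exact hS1 u hu
    · rintro u (rfl | hu) w (rfl | hw)
      · exact G.loopless.irrefl _
      · exact hc w hw
      · exact fun h => hc u hu h.symm
      · exact hS2 u hu w hw
  have := hmax ⟨insert v S, h1⟩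
  simp only at this
  rw [Set.ncard_insert_of_notMem hvS (Set.toFinite _)] at this
  omega

/-- the odd regular case -/
theorem odd_case {V : Type*} [Fintype V] (G : SimpleGraph V) (k : ℕ) (hk : 0 < k)
    (hreg : ∀ v, (G.neighborSet v).ncard = 2 * k + 1) :
    ∃ (vc : V → Option (Fin k × Fin 4) ⊕ Bool) (ac : V → V → Option (Fin k × Fin 4) ⊕ Bool),
      ArcCol G vc ac := by
  classical
  obtain ⟨F, Z, A, B, hFG, hF1, hF2, hF3, hAB, hZAB, hA, hB, hZ⟩ :=
    Pool.Agent.Helper16.StarForest.exists_star_forest G (2 * k + 1) (by omega) (by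
      intro v
      rw [← hreg v, Set.ncard_eq_toFinset_card', ← SimpleGraph.card_neighborFinset_eq_degree]
      congr 1)
  have hABd : ∀ v, v ∈ A → v ∉ B := fun v h1 h2 => Set.disjoint_left.mp hAB h1 h2
  have hZA : ∀ v, v ∈ Z → v ∉ A := fun v h1 h2 => Set.disjoint_left.mp hZAB h1 (Or.inl h2)
  have hZB : ∀ v, v ∈ Z → v ∉ B := fun v h1 h2 => Set.disjoint_left.mp hZAB h1 (Or.inr h2)
  obtain ⟨S, hS1, hS2, hS3⟩ := exists_maxindep G (A ∪ B ∪ Z)
  have hSA : ∀ v, v ∈ S → v ∉ A := fun v h h' => hS1 v h (Or.inl (Or.inl h'))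
  have hSB : ∀ v, v ∈ S → v ∉ B := fun v h h' => hS1 v h (Or.inl (Or.inr h'))
  have hSZ : ∀ v, v ∈ S → v ∉ Z := fun v h h' => hS1 v h (Or.inr h')
  let R : Set V := {v | v ∉ A ∧ v ∉ B ∧ v ∉ S}
  have hH : ∀ v, ((G \ F).neighborSet v) = G.neighborSet v \ F.neighborSet v := by
    intro v; ext u
    simp [SimpleGraph.sdiff_adj]
  have hFsub : ∀ v, F.neighborSet v ⊆ G.neighborSet v := fun v u hu => hFG hu
  obtain ⟨φ, α, c1, c2, c3, c4, c5⟩ := core G (G \ F) k hk sdiff_le Z R
    (fun v hv => ⟨hZA v hv, hZB v hv, fun h => hSZ v h hv⟩) hZ (by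
      intro v hv
      obtain ⟨a, ha, b, hb, hab⟩ := hF2 v hv
      have e : F.neighborSet v = {a, b} := by
        ext u; simp [hab u]
      have hne : a ≠ b := fun e => hABd a ha (e ▸ hb)
      rw [hH v, Set.ncard_sdiff (hFsub v) (Set.toFinite _), hreg v, e, Set.ncard_pair hne]
      omega) (by
      intro v hv
      obtain ⟨u, hu⟩ := hF1 v hv
      have e : F.neighborSet v = {u} := by
        ext w; simp [hu w]
      rw [hH v, Set.ncard_sdiff (hFsub v) (Set.toFinite _), hreg v, e, Set.ncard_singleton]
      omega) (by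
      rintro v ⟨hvA, hvB, hvS⟩ hvZ
      obtain ⟨s, hs, hvs⟩ := hS3 v (by rintro ((h | h) | h) <;> contradiction) hvS
      have hsub : {u | G.Adj v u ∧ u ∈ R} ⊆ G.neighborSet v \ {s} := by
        rintro u ⟨h1, h2⟩
        refine ⟨h1, ?_⟩
        rintro rfl
        exact h2.2.2 hs
      have := Set.ncard_le_ncard hsub (Set.toFinite _)
      rw [Set.ncard_sdiff (by rintro u rfl; exact hvs) (Set.toFinite _), hreg v,
        Set.ncard_singleton] at this
      omega)
  let e := Fintype.equivFin V
  -- colours of the arcs of F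
  let fa : V → V → Option (Fin k × Fin 4) ⊕ Bool := fun u v =>
    if u ∈ Z then (if v ∈ A then .inr true else .inr false)
    else if v ∈ Z then .inl none
    else if e u < e v then .inr false else .inr true
  let vc : V → Option (Fin k × Fin 4) ⊕ Bool := fun v =>
    if v ∈ A then .inr false else if v ∈ B then .inr true else if v ∈ S then .inl none
    else .inl (some (φ v))
  let ac : V → V → Option (Fin k × Fin 4) ⊕ Bool := fun u v =>
    if F.Adj u v then fa u v else .inl (α u v)
  have acF : ∀ u v, F.Adj u v → ac u v = fa u v := fun u v h => by simp only [ac, if_pos h]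
  have acH : ∀ u v, ¬ F.Adj u v → ac u v = .inl (α u v) := fun u v h => by
    simp only [ac, if_neg h]
  have HA : ∀ u v, G.Adj u v → ¬ F.Adj u v → (G \ F).Adj u v := fun u v h1 h2 => by
    rw [SimpleGraph.sdiff_adj]; exact ⟨h1, h2⟩
  -- F-neighbours of Z
  have hZnb : ∀ z ∈ Z, ∀ v, F.Adj z v → (v ∈ A ∨ v ∈ B) := by
    intro z hz v hv
    obtain ⟨a, ha, b, hb, hab⟩ := hF2 z hz
    rcases (hab v).mp hv with rfl | rfl
    · exact Or.inl ha
    · exact Or.inr hb
  have hleafZ : ∀ z ∈ Z, ∀ v, F.Adj z v → v ∉ Z := by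
    intro z hz v hv hvZ
    rcases hZnb z hz v hv with h | h
    · exact hZA v hvZ h
    · exact hZB v hvZ h
  -- values of vc
  have vcA : ∀ v, v ∈ A → vc v = .inr false := fun v h => by simp only [vc, if_pos h]
  have vcB : ∀ v, v ∈ B → vc v = .inr true := fun v h => by
    simp only [vc, if_neg (fun h' => hABd v h' h), if_pos h]
  have vcS : ∀ v, v ∈ S → vc v = .inl none := fun v h => by
    simp only [vc, if_neg (hSA v h), if_neg (hSB v h), if_pos h]
  have vcR : ∀ v, v ∈ R → vc v = .inl (some (φ v)) := fun v h => by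
    simp only [vc, if_neg h.1, if_neg h.2.1, if_neg h.2.2]
  have tri : ∀ v, v ∈ A ∨ v ∈ B ∨ v ∈ S ∨ v ∈ R := by
    intro v
    by_cases h1 : v ∈ A
    · exact Or.inl h1
    by_cases h2 : v ∈ B
    · exact Or.inr (Or.inl h2)
    by_cases h3 : v ∈ S
    · exact Or.inr (Or.inr (Or.inl h3))
    · exact Or.inr (Or.inr (Or.inr ⟨h1, h2, h3⟩))
  -- values of fa
  have fa1 : ∀ u v, u ∈ Z → v ∈ A → fa u v = .inr true := fun u v h1 h2 => by
    simp only [fa, if_pos h1, if_pos h2]
  have fa2 : ∀ u v, u ∈ Z → v ∈ B → fa u v = .inr false := fun u v h1 h2 => by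
    simp only [fa, if_pos h1, if_neg (fun h' => hABd v h' h2)]
  have fa3 : ∀ u v, u ∉ Z → v ∈ Z → fa u v = .inl none := fun u v h1 h2 => by
    simp only [fa, if_neg h1, if_pos h2]
  have fa4 : ∀ u v, u ∉ Z → v ∉ Z → fa u v = if e u < e v then .inr false else .inr true :=
    fun u v h1 h2 => by simp only [fa, if_neg h1, if_neg h2]
  have fa4' : ∀ u v, u ∉ Z → v ∉ Z → ∃ b, fa u v = .inr b := by
    intro u v h1 h2
    rw [fa4 u v h1 h2]
    split_ifs
    · exact ⟨_, rfl⟩
    · exact ⟨_, rfl⟩
  have faZ : ∀ u v, u ∈ Z → ∃ b, fa u v = .inr b := by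
    intro u v h1
    simp only [fa, if_pos h1]
    split_ifs
    · exact ⟨_, rfl⟩
    · exact ⟨_, rfl⟩
  -- the key comparison of vertices and arcs of F
  have kF : ∀ u v, F.Adj u v → vc u ≠ fa u v ∧ vc u ≠ fa v u := by
    intro u v huv
    by_cases huZ : u ∈ Z
    · have hvZ := hleafZ u huZ v huv
      have huR : u ∈ R := ⟨hZA u huZ, hZB u huZ, fun h => hSZ u h huZ⟩
      rw [vcR u huR, fa3 v u hvZ huZ]
      obtain ⟨b, hb⟩ := faZ u v huZ
      rw [hb]
      exact ⟨by simp, by simp⟩
    by_cases hvZ : v ∈ Z
    · rw [fa3 u v huZ hvZ]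
      rcases hZnb v hvZ u huv.symm with h | h
      · rw [vcA u h, fa1 v u hvZ h]; exact ⟨by simp, by simp⟩
      · rw [vcB u h, fa2 v u hvZ h]; exact ⟨by simp, by simp⟩
    obtain ⟨b, hb⟩ := fa4' u v huZ hvZ
    obtain ⟨b', hb'⟩ := fa4' v u hvZ huZ
    rw [hb, hb']
    rcases tri u with h | h | h | h
    · exact absurd (hF3 u (Or.inl h) v huv) hvZ
    · exact absurd (hF3 u (Or.inr h) v huv) hvZ
    · rw [vcS u h]; exact ⟨by simp, by simp⟩
    · rw [vcR u h]; exact ⟨by simp, by simp⟩
  -- the key comparison of vertices and arcs of H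
  have kH : ∀ u v, (G \ F).Adj u v → vc u ≠ .inl (α u v) ∧ vc u ≠ .inl (α v u) := by
    intro u v huv
    rcases tri u with h | h | h | h
    · rw [vcA u h]; exact ⟨by simp, by simp⟩
    · rw [vcB u h]; exact ⟨by simp, by simp⟩
    · rw [vcS u h]
      refine ⟨?_, ?_⟩
      · intro ee
        have := c5 u v huv (Sum.inl.inj ee).symm
        exact this.1.2.2 h
      · intro ee
        have := c5 v u huv.symm (Sum.inl.inj ee).symm
        exact this.2.2.2.2 h
    · rw [vcR u h]
      obtain ⟨t1, t2⟩ := c2 u v huv h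
      exact ⟨fun ee => t1 (Sum.inl.inj ee), fun ee => t2 (Sum.inl.inj ee)⟩
  refine ⟨vc, ac, ?_, ?_, ?_, ?_, ?_⟩
  · intro u v huv
    rcases tri u with h | h | h | h <;> rcases tri v with h' | h' | h' | h'
    · exact absurd huv (hA u h v h')
    · rw [vcA u h, vcB v h']; simp
    · rw [vcA u h, vcS v h']; simp
    · rw [vcA u h, vcR v h']; simp
    · rw [vcB u h, vcA v h']; simp
    · exact absurd huv (hB u h v h')
    · rw [vcB u h, vcS v h']; simp
    · rw [vcB u h, vcR v h']; simp
    · rw [vcS u h, vcA v h']; simp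
    · rw [vcS u h, vcB v h']; simp
    · exact absurd huv (hS2 u h v h')
    · rw [vcS u h, vcR v h']; simp
    · rw [vcR u h, vcA v h']; simp
    · rw [vcR u h, vcB v h']; simp
    · rw [vcR u h, vcS v h']; simp
    · rw [vcR u h, vcR v h']
      intro ee
      exact c1 u h v h' huv (Option.some.inj (Sum.inl.inj ee))
  · intro u v huv
    by_cases hF : F.Adj u v
    · rw [acF u v hF]; exact (kF u v hF).1
    · rw [acH u v hF]; exact (kH u v (HA u v huv hF)).1
  · intro u v huv
    by_cases hF : F.Adj u v
    · rw [acF v u hF.symm]; exact (kF u v hF).2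
    · rw [acH v u (fun h => hF h.symm)]; exact (kH u v (HA u v huv hF)).2
  · intro u v w huv huw hvw
    by_cases hF : F.Adj u v <;> by_cases hF' : F.Adj u w
    · rw [acF u v hF, acF u w hF']
      by_cases huZ : u ∈ Z
      · obtain ⟨a, ha, b, hb, hab⟩ := hF2 u huZ
        rcases (hab v).mp hF with rfl | rfl <;> rcases (hab w).mp hF' with rfl | rfl
        · exact absurd rfl hvw
        · rw [fa1 u v huZ ha, fa2 u w huZ hb]; simp
        · rw [fa2 u v huZ hb, fa1 u w huZ ha]; simp
        · exact absurd rfl hvw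
      · obtain ⟨x, hx⟩ := hF1 u huZ
        exact absurd (((hx v).mp hF).trans ((hx w).mp hF').symm) hvw
    · rw [acF u v hF, acH u w hF']
      have hw := HA u w huw hF'
      by_cases huZ : u ∈ Z
      · obtain ⟨b, hb⟩ := faZ u v huZ
        rw [hb]; simp
      by_cases hvZ : v ∈ Z
      · rw [fa3 u v huZ hvZ]
        intro ee
        have := (c5 u w hw (Sum.inl.inj ee).symm).1
        rcases hZnb v hvZ u hF.symm with h | h
        · exact this.1 h
        · exact this.2.1 h
      · obtain ⟨b, hb⟩ := fa4' u v huZ hvZ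
        rw [hb]; simp
    · rw [acH u v hF, acF u w hF']
      have hv := HA u v huv hF
      by_cases huZ : u ∈ Z
      · obtain ⟨b, hb⟩ := faZ u w huZ
        rw [hb]; simp
      by_cases hwZ : w ∈ Z
      · rw [fa3 u w huZ hwZ]
        intro ee
        have := (c5 u v hv (Sum.inl.inj ee)).1
        rcases hZnb w hwZ u hF'.symm with h | h
        · exact this.1 h
        · exact this.2.1 h
      · obtain ⟨b, hb⟩ := fa4' u w huZ hwZ
        rw [hb]; simp
    · rw [acH u v hF, acH u w hF']
      intro ee
      exact c3 u v w (HA u v huv hF) (HA u w huw hF') hvw (Sum.inl.inj ee)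
  · intro u v w huv hvw
    by_cases hF : F.Adj u v <;> by_cases hF' : F.Adj v w
    · rw [acF u v hF, acF v w hF']
      by_cases hvZ : v ∈ Z
      · have huZ := hleafZ v hvZ u hF.symm
        rw [fa3 u v huZ hvZ]
        obtain ⟨b, hb⟩ := faZ v w hvZ
        rw [hb]; simp
      · obtain ⟨x, hx⟩ := hF1 v hvZ
        have huw : u = w := ((hx u).mp hF.symm).trans ((hx w).mp hF').symm
        subst huw
        by_cases huZ : u ∈ Z
        · rw [fa3 v u hvZ huZ]
          obtain ⟨b, hb⟩ := faZ u v huZ
          rw [hb]; simp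
        · rw [fa4 u v huZ hvZ, fa4 v u hvZ huZ]
          have hne : e u ≠ e v := fun ee => huv.ne (e.injective ee)
          rcases lt_or_gt_of_ne hne with h | h
          · rw [if_pos h, if_neg (not_lt.mpr h.le)]; simp
          · rw [if_neg (not_lt.mpr h.le), if_pos h]; simp
    · rw [acF u v hF, acH v w hF']
      have hw := HA v w hvw hF'
      by_cases huZ : u ∈ Z
      · obtain ⟨b, hb⟩ := faZ u v huZ
        rw [hb]; simp
      by_cases hvZ : v ∈ Z
      · rw [fa3 u v huZ hvZ]
        intro ee
        exact (c5 v w hw (Sum.inl.inj ee).symm).2.1 hvZ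
      · obtain ⟨b, hb⟩ := fa4' u v huZ hvZ
        rw [hb]; simp
    · rw [acH u v hF, acF v w hF']
      have hv := HA u v huv hF
      by_cases hvZ : v ∈ Z
      · obtain ⟨b, hb⟩ := faZ v w hvZ
        rw [hb]; simp
      by_cases hwZ : w ∈ Z
      · rw [fa3 v w hvZ hwZ]
        intro ee
        have := (c5 u v hv (Sum.inl.inj ee)).2.2
        rcases hZnb w hwZ v hF'.symm with h | h
        · exact this.1 h
        · exact this.2.1 h
      · obtain ⟨b, hb⟩ := fa4' v w hvZ hwZ
        rw [hb]; simp
    · rw [acH u v hF, acH v w hF']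
      intro ee
      exact c4 u v w (HA u v huv hF) (HA v w hvw hF') (Sum.inl.inj ee)

/-- the main theorem: `2 d + 1` colours are enough when all degrees are at most `d` -/
theorem main {V : Type*} [Fintype V] (G : SimpleGraph V) [DecidableRel G.Adj] (d : ℕ)
    (hd : 2 ≤ d) (hdeg : ∀ v, G.degree v ≤ d) :
    (power (subdiv3 G) 3).Colorable (2 * d + 1) := by
  obtain ⟨W, _, G', _, f, hf, hreg⟩ := exists_regular_super G d hdeg
  have hreg' : ∀ w, (G'.neighborSet w).ncard = d := by
    intro w
    rw [← hreg w, Set.ncard_eq_toFinset_card', ← SimpleGraph.card_neighborFinset_eq_degree]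
    rfl
  -- restriction to the subgraph
  have hres : ∀ (C : Type) (_ : Fintype C) (vc : W → C) (ac : W → W → C), ArcCol G' vc ac →
      Fintype.card C = 2 * d + 1 → (power (subdiv3 G) 3).Colorable (2 * d + 1) := by
    intro C _ vc ac h hC
    rw [← hC]
    apply colorable_of_arcCol (vc := fun v => vc (f v)) (ac := fun u v => ac (f u) (f v))
    exact ⟨fun u v huv => h.h1 _ _ (hf _ _ huv), fun u v huv => h.h2 _ _ (hf _ _ huv),
      fun u v huv => h.h3 _ _ (hf _ _ huv),
      fun u v w huv huw hvw => h.h4 _ _ _ (hf _ _ huv) (hf _ _ huw) (fun e => hvw (f.injective e)),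
      fun u v w huv hvw => h.h5 _ _ _ (hf _ _ huv) (hf _ _ hvw)⟩
  rcases Nat.even_or_odd d with ⟨k, hk⟩ | ⟨k, hk⟩
  · obtain ⟨vc, ac, h⟩ := even_case G' k (by omega) (fun w => by rw [hreg' w]; omega)
    refine hres _ inferInstance vc ac h ?_
    simp only [Fintype.card_option, Fintype.card_prod, Fintype.card_fin]
    omega
  · obtain ⟨vc, ac, h⟩ := odd_case G' k (by omega) (fun w => by rw [hreg' w]; omega)
    refine hres _ inferInstance vc ac h ?_
    simp only [Fintype.card_sum, Fintype.card_option, Fintype.card_prod, Fintype.card_fin,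
      Fintype.card_bool]
    omega

end TT
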